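import Mathlib

namespace Pool.Agent.Helper54.Lg

open Finset

theorem sum_dite_sub {ι : Type} [Fintype ι] (p : ι → Prop) [DecidablePred p]
    (G : {i // p i} → ℝ) (f : ι → ℝ) :
    ∑ i, (if h : p i then G ⟨i, h⟩ else 0) * f i = ∑ x : {i // p i}, G x * f x.1 := by
  have h1 : ∑ x : {i // p i}, G x * f x.1 =
      ∑ x : {i // p i}, (fun i => (if h : p i then G ⟨i, h⟩ else 0) * f i) x.1 := by
    apply Finset.sum_congr rfl
    intro x _
    simp [x.2]
  rw [h1, ← Finset.sum_subtype (Finset.univ.filter p) (by simp)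
    (fun i => (if h : p i then G ⟨i, h⟩ else 0) * f i), Finset.sum_filter]
  apply Finset.sum_congr rfl
  intro i _
  by_cases h : p i
  · simp [h]
  · simp [h]

theorem exists_mid {P Q : Type} [Fintype P] [Fintype Q] (A : Q → ℝ) (B : P → ℝ)
    (h : ∀ p q, A q ≤ B p) : ∃ t, (∀ q, A q ≤ t) ∧ ∀ p, t ≤ B p := by
  classical
  rcases isEmpty_or_nonempty Q with hQ | hQ
  · rcases isEmpty_or_nonempty P with hP | hP
    · exact ⟨0, fun q => (hQ.false q).elim, fun p => (hP.false p).elim⟩
    · refine ⟨Finset.univ.inf' Finset.univ_nonempty B, fun q => (hQ.false q).elim, fun p => ?_⟩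
      exact Finset.inf'_le _ (Finset.mem_univ p)
  · refine ⟨Finset.univ.sup' Finset.univ_nonempty A, fun q => ?_, fun p => ?_⟩
    · exact Finset.le_sup' _ (Finset.mem_univ q)
    · exact Finset.sup'_le _ _ fun q _ => h p q

/-- Farkas alternative over the reals, by Fourier–Motzkin elimination. -/
theorem farkas_real : ∀ (n : ℕ) (ι : Type) [Fintype ι] (g : ι → Fin n → ℝ) (c : ι → ℝ),
    (∃ y : Fin n → ℝ, ∀ i, c i + ∑ a, g i a * y a ≤ 0) ∨
    ∃ l : ι → ℝ, (∀ i, 0 ≤ l i) ∧ (∀ a, ∑ i, l i * g i a = 0) ∧ 0 < ∑ i, l i * c i := by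
  classical
  intro n
  induction n with
  | zero =>
    intro ι _ g c
    by_cases h : ∀ i, c i ≤ 0
    · left
      exact ⟨fun a => a.elim0, fun i => by simpa using h i⟩
    · right
      push Not at h
      obtain ⟨i, hi⟩ := h
      refine ⟨fun j => if j = i then 1 else 0, fun j => ?_, fun a => a.elim0, ?_⟩
      · by_cases hj : j = i
        · simp [hj]
        · simp [hj]
      · simp [hi]
  | succ n ih =>
    intro ι _ g c
    let P := {i : ι // 0 < g i (Fin.last n)}
    let Q := {i : ι // g i (Fin.last n) < 0}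
    let Z := {i : ι // g i (Fin.last n) = 0}
    let T : (ι → ℝ) → Z ⊕ (P × Q) → ℝ := fun f k => match k with
      | Sum.inl z => f z.1
      | Sum.inr (p, q) => (- g q.1 (Fin.last n)) * f p.1 + g p.1 (Fin.last n) * f q.1
    have hTlin : ∀ (y : Fin n → ℝ) (k : Z ⊕ (P × Q)), T c k +
        ∑ a : Fin n, T (fun i => g i a.castSucc) k * y a =
        T (fun i => c i + ∑ a : Fin n, g i a.castSucc * y a) k := by
      intro y k
      rcases k with z | ⟨p, q⟩
      · rfl
      · change (- g q.1 (Fin.last n)) * c p.1 + g p.1 (Fin.last n) * c q.1 +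
          ∑ a : Fin n, ((- g q.1 (Fin.last n)) * g p.1 a.castSucc + g p.1 (Fin.last n) *
            g q.1 a.castSucc) * y a = (- g q.1 (Fin.last n)) * (c p.1 + ∑ a : Fin n,
            g p.1 a.castSucc * y a) + g p.1 (Fin.last n) * (c q.1 + ∑ a : Fin n,
            g q.1 a.castSucc * y a)
        rw [mul_add, mul_add, Finset.mul_sum, Finset.mul_sum]
        have : ∑ a : Fin n, ((- g q.1 (Fin.last n)) * g p.1 a.castSucc + g p.1 (Fin.last n) *
            g q.1 a.castSucc) * y a = ∑ a : Fin n, (- g q.1 (Fin.last n)) *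
              (g p.1 a.castSucc * y a) + ∑ a : Fin n, g p.1 (Fin.last n) *
              (g q.1 a.castSucc * y a) := by
          rw [← Finset.sum_add_distrib]
          apply Finset.sum_congr rfl
          intro a _; ring
        rw [this]; ring
    rcases ih (Z ⊕ (P × Q)) (fun k a => T (fun i => g i a.castSucc) k) (T c) with
      ⟨y, hy⟩ | ⟨l, hl0, hl1, hl2⟩
    · left
      set s : ι → ℝ := fun i => c i + ∑ a : Fin n, g i a.castSucc * y a with hs
      have hy' : ∀ k, T s k ≤ 0 := fun k => by
        have := hy k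
        rwa [hTlin y k] at this
      obtain ⟨t, ht1, ht2⟩ := exists_mid (fun q : Q => -(s q.1) / g q.1 (Fin.last n))
        (fun p : P => -(s p.1) / g p.1 (Fin.last n)) (by
          intro p q
          have h1 := hy' (Sum.inr (p, q))
          have hp := p.2
          have hq := q.2
          change (- g q.1 (Fin.last n)) * s p.1 + g p.1 (Fin.last n) * s q.1 ≤ 0 at h1
          rw [le_div_iff₀ hp, ← mul_div_right_comm, div_le_iff_of_neg hq]
          linarith)
      refine ⟨Fin.snoc y t, fun i => ?_⟩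
      rw [Fin.sum_univ_castSucc]
      simp only [Fin.snoc_castSucc, Fin.snoc_last]
      have hsi : c i + (∑ a : Fin n, g i a.castSucc * y a + g i (Fin.last n) * t) =
          s i + g i (Fin.last n) * t := by rw [hs]; ring
      rw [hsi]
      rcases lt_trichotomy (g i (Fin.last n)) 0 with h | h | h
      · have := ht1 ⟨i, h⟩
        simp only at this
        rw [div_le_iff_of_neg h] at this
        linarith
      · have := hy' (Sum.inl ⟨i, h⟩)
        change s i ≤ 0 at this
        rw [h]; linarith
      · have := ht2 ⟨i, h⟩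
        simp only at this
        rw [le_div_iff₀ h] at this
        linarith
    · right
      set L : ι → ℝ := fun i =>
        (if h : g i (Fin.last n) = 0 then l (Sum.inl ⟨i, h⟩) else 0) +
        (if h : 0 < g i (Fin.last n) then
          ∑ q : Q, (- g q.1 (Fin.last n)) * l (Sum.inr (⟨i, h⟩, q)) else 0) +
        (if h : g i (Fin.last n) < 0 then
          ∑ p : P, g p.1 (Fin.last n) * l (Sum.inr (p, ⟨i, h⟩)) else 0) with hL
      have key : ∀ f : ι → ℝ, ∑ i, L i * f i = ∑ k, l k * T f k := by
        intro f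
        have e1 := sum_dite_sub (fun i => g i (Fin.last n) = 0) (fun z : Z => l (Sum.inl z)) f
        have e2 := sum_dite_sub (fun i => 0 < g i (Fin.last n))
          (fun p : P => ∑ q : Q, (- g q.1 (Fin.last n)) * l (Sum.inr (p, q))) f
        have e3 := sum_dite_sub (fun i => g i (Fin.last n) < 0)
          (fun q : Q => ∑ p : P, g p.1 (Fin.last n) * l (Sum.inr (p, q))) f
        have e0 : ∑ i, L i * f i =
          ∑ i, (if h : g i (Fin.last n) = 0 then l (Sum.inl ⟨i, h⟩) else 0) * f i +
          ∑ i, (if h : 0 < g i (Fin.last n) then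
            ∑ q : Q, (- g q.1 (Fin.last n)) * l (Sum.inr (⟨i, h⟩, q)) else 0) * f i +
          ∑ i, (if h : g i (Fin.last n) < 0 then
            ∑ p : P, g p.1 (Fin.last n) * l (Sum.inr (p, ⟨i, h⟩)) else 0) * f i := by
          rw [← Finset.sum_add_distrib, ← Finset.sum_add_distrib]
          apply Finset.sum_congr rfl
          intro i _
          rw [hL]; ring
        rw [e0]
        refine (congrArg₂ (· + ·) (congrArg₂ (· + ·) e1 e2) e3).trans ?_
        rw [Fintype.sum_sum_type, Fintype.sum_prod_type]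
        have e4 : ∑ q : Q, (∑ p : P, g p.1 (Fin.last n) * l (Sum.inr (p, q))) * f q.1 =
            ∑ p : P, ∑ q : Q, g p.1 (Fin.last n) * l (Sum.inr (p, q)) * f q.1 := by
          rw [Finset.sum_comm]
          apply Finset.sum_congr rfl
          intro q _
          rw [Finset.sum_mul]
        rw [e4, add_assoc, ← Finset.sum_add_distrib]
        congr 1
        apply Finset.sum_congr rfl
        intro p _
        rw [Finset.sum_mul, ← Finset.sum_add_distrib]
        apply Finset.sum_congr rfl
        intro q _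
        change _ = l (Sum.inr (p, q)) * ((- g q.1 (Fin.last n)) * f p.1 +
          g p.1 (Fin.last n) * f q.1)
        ring
      refine ⟨L, fun i => ?_, fun a => ?_, ?_⟩
      · rw [hL]
        simp only
        have n1 : 0 ≤ (if h : g i (Fin.last n) = 0 then l (Sum.inl ⟨i, h⟩) else 0) := by
          split_ifs
          · exact hl0 _
          · exact le_rfl
        have n2 : 0 ≤ (if h : 0 < g i (Fin.last n) then
            ∑ q : Q, (- g q.1 (Fin.last n)) * l (Sum.inr (⟨i, h⟩, q)) else 0) := by
          split_ifs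
          · exact Finset.sum_nonneg fun q _ => mul_nonneg (by have := q.2; linarith) (hl0 _)
          · exact le_rfl
        have n3 : 0 ≤ (if h : g i (Fin.last n) < 0 then
            ∑ p : P, g p.1 (Fin.last n) * l (Sum.inr (p, ⟨i, h⟩)) else 0) := by
          split_ifs
          · exact Finset.sum_nonneg fun p _ => mul_nonneg (le_of_lt p.2) (hl0 _)
          · exact le_rfl
        linarith
      · refine Fin.lastCases ?_ (fun a => ?_) a
        · rw [key]
          apply Finset.sum_eq_zero
          intro k _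
          rcases k with z | ⟨p, q⟩
          · change l (Sum.inl z) * g z.1 (Fin.last n) = 0
            rw [z.2, mul_zero]
          · change l (Sum.inr (p, q)) * ((- g q.1 (Fin.last n)) * g p.1 (Fin.last n) +
              g p.1 (Fin.last n) * g q.1 (Fin.last n)) = 0
            ring
        · rw [key]; exact hl1 a
      · rw [key]; exact hl2

theorem farkas_real' {Y LL : Type} [Fintype Y] [Fintype LL] (g : LL → Y → ℝ) (c : LL → ℝ) :
    (∃ y : Y → ℝ, ∀ i, c i + ∑ a, g i a * y a ≤ 0) ∨
    ∃ l : LL → ℝ, (∀ i, 0 ≤ l i) ∧ (∀ a, ∑ i, l i * g i a = 0) ∧ 0 < ∑ i, l i * c i := by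
  let e := Fintype.equivFin Y
  rcases farkas_real (Fintype.card Y) LL (fun i k => g i (e.symm k)) c with
    ⟨y, hy⟩ | ⟨l, h0, h1, h2⟩
  · left
    refine ⟨fun a => y (e a), fun i => ?_⟩
    have h := hy i
    have h3 : ∑ a, g i a * y (e a) = ∑ k, g i (e.symm k) * y k := by
      rw [← Equiv.sum_comp e]
      apply Finset.sum_congr rfl
      intro a _
      rw [Equiv.symm_apply_apply]
    rw [h3]; exact h
  · right
    refine ⟨l, h0, fun a => ?_, h2⟩
    have := h1 (e a)
    simpa using this

section

variable {Y LL : Type} [Fintype Y] [Fintype LL] (g : LL → Y → ℤ) (c : LL → ℝ)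

/-- real certificate of infeasibility -/
def Val (l : LL → ℝ) : Prop :=
  (∀ i, 0 ≤ l i) ∧ (∀ a, ∑ i, l i * (g i a : ℝ) = 0) ∧ 0 < ∑ i, l i * c i

open Classical in
theorem exists_min_val (h : ∃ l, Val g c l) : ∃ l, Val g c l ∧ ∀ l', Val g c l' →
    (Finset.univ.filter fun i => l i ≠ 0).card ≤ (Finset.univ.filter fun i => l' i ≠ 0).card := by
  have hex : ∃ n, ∃ l, Val g c l ∧ (Finset.univ.filter fun i => l i ≠ 0).card = n := by
    obtain ⟨l, hl⟩ := h
    exact ⟨_, l, hl, rfl⟩
  obtain ⟨l, hl, hn⟩ := Nat.find_spec hex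
  refine ⟨l, hl, fun l' hl' => ?_⟩
  rw [hn]
  exact Nat.find_min' hex ⟨l', hl', rfl⟩

open Classical in
/-- a relation on the support of a minimal certificate with a positive entry is a certificate up
to sign conditions -/
theorem star {l : LL → ℝ} (hl : Val g c l) (hmin : ∀ l', Val g c l' →
    (Finset.univ.filter fun i => l i ≠ 0).card ≤ (Finset.univ.filter fun i => l' i ≠ 0).card)
    (μ : LL → ℝ) (hμ : ∀ a, ∑ i, μ i * (g i a : ℝ) = 0) (hs : ∀ i, l i = 0 → μ i = 0)
    (hp : ∃ i, 0 < μ i) : 0 < ∑ i, μ i * c i := by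
  obtain ⟨i1, hi1⟩ := hp
  obtain ⟨i0, hi0, hi0'⟩ := Finset.exists_min_image (Finset.univ.filter fun i => 0 < μ i)
    (fun i => l i / μ i) ⟨i1, by simpa using hi1⟩
  have hμ0 : 0 < μ i0 := by simpa using hi0
  set t := l i0 / μ i0 with ht
  have hl0 : 0 < l i0 := lt_of_le_of_ne (hl.1 i0) (fun h => hμ0.ne' (hs i0 h.symm))
  have ht0 : 0 < t := div_pos hl0 hμ0
  by_contra hc
  push Not at hc
  have hval : Val g c (fun i => l i - t * μ i) := by
    refine ⟨fun i => ?_, fun a => ?_, ?_⟩
    · rcases lt_or_ge 0 (μ i) with h | h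
      · have := hi0' i (by simpa using h)
        rw [le_div_iff₀ h] at this
        linarith
      · have := hl.1 i
        nlinarith
    · have : ∑ i, (l i - t * μ i) * (g i a : ℝ) =
          ∑ i, l i * (g i a : ℝ) - t * ∑ i, μ i * (g i a : ℝ) := by
        rw [Finset.mul_sum, ← Finset.sum_sub_distrib]
        apply Finset.sum_congr rfl
        intro i _; ring
      rw [this, hl.2.1 a, hμ a]; ring
    · have : ∑ i, (l i - t * μ i) * c i = ∑ i, l i * c i - t * ∑ i, μ i * c i := by
        rw [Finset.mul_sum, ← Finset.sum_sub_distrib]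
        apply Finset.sum_congr rfl
        intro i _; ring
      rw [this]
      have h1 := hl.2.2
      nlinarith
  have h1 := hmin _ hval
  have h2 : (Finset.univ.filter fun i => l i - t * μ i ≠ 0) ⊂
      Finset.univ.filter fun i => l i ≠ 0 := by
    rw [Finset.ssubset_iff_of_subset]
    · refine ⟨i0, by simpa using hl0.ne', ?_⟩
      simp only [Finset.mem_filter, Finset.mem_univ, true_and, not_not]
      rw [ht]; field_simp; ring
    · intro i
      simp only [Finset.mem_filter, Finset.mem_univ, true_and]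
      intro h h3
      rw [h3, hs i h3] at h
      simp at h
  have h3 := Finset.card_lt_card h2
  omega

attribute [local instance] Matrix.seminormedAddCommGroup in
open Classical in
/-- a small nonzero integer relation on the support -/
theorem small_rel {H : ℕ} (hH : ∀ i a, (g i a).natAbs ≤ H) {l : LL → ℝ} (hl : Val g c l) :
    ∃ z : LL → ℤ, z ≠ 0 ∧ (∀ a, ∑ i, z i * g i a = 0) ∧ (∀ i, l i = 0 → z i = 0) ∧
      ∀ i, (z i).natAbs ≤ (Fintype.card LL * max 1 H) ^ Fintype.card Y := by
  have hSne : ∃ i, l i ≠ 0 := by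
    by_contra h
    push Not at h
    have := hl.2.2
    simp [h] at this
  let S := {i : LL // l i ≠ 0}
  have hSpos : 0 < Fintype.card S := Fintype.card_pos_iff.2 ⟨⟨hSne.choose, hSne.choose_spec⟩⟩
  have hSle : Fintype.card S ≤ Fintype.card LL := Fintype.card_subtype_le _
  have hbase : 1 ≤ Fintype.card LL * max 1 H :=
    Nat.succ_le_of_lt (Nat.mul_pos (hSpos.trans_le hSle) (lt_of_lt_of_le one_pos (le_max_left _ _)))
  let v : Y → S → ℝ := fun a i => (g i.1 a : ℝ)
  obtain ⟨κ, f, hf, hspan, hli⟩ := exists_linearIndependent' ℝ v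
  have : Finite κ := Finite.of_injective f hf
  let _ : Fintype κ := Fintype.ofFinite κ
  have hκY : Fintype.card κ ≤ Fintype.card Y := Fintype.card_le_of_injective f hf
  -- the functional given by `l`
  let φ : (S → ℝ) →ₗ[ℝ] ℝ := ∑ i : S, (l i.1) • LinearMap.proj i
  have hφ : ∀ w : S → ℝ, φ w = ∑ i : S, l i.1 * w i := by
    intro w
    simp [φ, LinearMap.sum_apply]
  have hker : Submodule.span ℝ (Set.range (v ∘ f)) ≤ LinearMap.ker φ := by
    rw [Submodule.span_le]
    rintro _ ⟨k, rfl⟩
    change φ (v (f k)) = 0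
    rw [hφ]
    have h1 := hl.2.1 (f k)
    have h2 : ∑ i, l i * (g i (f k) : ℝ) = ∑ i : S, l i.1 * (g i.1 (f k) : ℝ) := by
      rw [← Finset.sum_subtype (Finset.univ.filter fun i => l i ≠ 0) (by simp)
        (fun i => l i * (g i (f k) : ℝ)), Finset.sum_filter]
      apply Finset.sum_congr rfl
      intro i _
      by_cases h : l i = 0
      · simp [h]
      · simp [h]
    rw [h2] at h1
    exact h1
  have hne : LinearMap.ker φ ≠ ⊤ := by
    intro h
    have h1 : φ (fun i => l i.1) = 0 := by
      have : (fun i : S => l i.1) ∈ LinearMap.ker φ := by rw [h]; trivial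
      exact this
    rw [hφ] at h1
    have h2 : 0 < ∑ i : S, l i.1 * l i.1 := by
      have : Nonempty S := Fintype.card_pos_iff.1 hSpos
      apply Finset.sum_pos
      · intro i _
        exact mul_self_pos.2 i.2
      · exact Finset.univ_nonempty
    linarith
  have hcard : Fintype.card κ < Fintype.card S := by
    have h1 : Module.finrank ℝ (Submodule.span ℝ (Set.range (v ∘ f))) = Fintype.card κ :=
      finrank_span_eq_card hli
    have h2 := Submodule.finrank_mono hker
    have h3 := Submodule.finrank_lt hne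
    have h4 : Module.finrank ℝ (S → ℝ) = Fintype.card S := Module.finrank_fintype_fun_eq_card ℝ
    omega
  -- a relation for the rows in `κ` is a relation
  have hrel : ∀ z : S → ℤ, (∀ k, ∑ i : S, g i.1 (f k) * z i = 0) →
      ∀ a, ∑ i : S, g i.1 a * z i = 0 := by
    intro z hz a
    let ψ : (S → ℝ) →ₗ[ℝ] ℝ := ∑ i : S, (z i : ℝ) • LinearMap.proj i
    have hψ : ∀ w : S → ℝ, ψ w = ∑ i : S, (z i : ℝ) * w i := by
      intro w
      simp [ψ, LinearMap.sum_apply]
    have h1 : Submodule.span ℝ (Set.range (v ∘ f)) ≤ LinearMap.ker ψ := by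
      rw [Submodule.span_le]
      rintro _ ⟨k, rfl⟩
      change ψ (v (f k)) = 0
      rw [hψ]
      have h2 : ((∑ i : S, g i.1 (f k) * z i : ℤ) : ℝ) = 0 := by rw [hz k]; simp
      push_cast at h2
      refine Eq.trans ?_ h2
      apply Finset.sum_congr rfl
      intro i _
      change (z i : ℝ) * (g i.1 (f k) : ℝ) = _
      ring
    rw [hspan] at h1
    have h3 : ψ (v a) = 0 := h1 (Submodule.subset_span ⟨a, rfl⟩)
    rw [hψ] at h3
    have h4 : ((∑ i : S, g i.1 a * z i : ℤ) : ℝ) = 0 := by
      push_cast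
      refine Eq.trans ?_ h3
      apply Finset.sum_congr rfl
      intro i _
      change _ = (z i : ℝ) * (g i.1 a : ℝ)
      ring
    exact_mod_cast h4
  -- small integer relation on `S`
  obtain ⟨z, hz0, hz1, hz2⟩ : ∃ z : S → ℤ, z ≠ 0 ∧ (∀ k, ∑ i : S, g i.1 (f k) * z i = 0) ∧
      ∀ i, (z i).natAbs ≤ (Fintype.card LL * max 1 H) ^ Fintype.card Y := by
    rcases Nat.eq_zero_or_pos (Fintype.card κ) with hk | hk
    · have : IsEmpty κ := Fintype.card_eq_zero_iff.1 hk
      obtain ⟨i0⟩ : Nonempty S := Fintype.card_pos_iff.1 hSpos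
      refine ⟨fun i => if i = i0 then 1 else 0, fun h => ?_, fun k => isEmptyElim k, fun i => ?_⟩
      · have := congrFun h i0
        simp at this
      · have h1 : 1 ≤ (Fintype.card LL * max 1 H) ^ Fintype.card Y := Nat.one_le_pow _ _ hbase
        by_cases h : i = i0
        · simp [h, h1]
        · simp [h]
    · obtain ⟨z, hz0, hz1, hz2⟩ := Int.Matrix.exists_ne_zero_int_vec_norm_le
        (Matrix.of fun (k : κ) (i : S) => g i.1 (f k)) hcard hk
      refine ⟨z, hz0, fun k => congrFun hz1 k, fun i => ?_⟩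
      have hA : ‖(Matrix.of fun (k : κ) (i : S) => g i.1 (f k) : Matrix κ S ℤ)‖ ≤ H := by
        rw [Matrix.norm_le_iff (Nat.cast_nonneg _)]
        intro k i
        simp only [Matrix.of_apply]
        rw [Int.norm_eq_abs, ← Int.cast_abs, Int.abs_eq_natAbs]
        exact_mod_cast hH i.1 (f k)
      have hA' : max 1 ‖(Matrix.of fun (k : κ) (i : S) => g i.1 (f k) : Matrix κ S ℤ)‖ ≤
          ((max 1 H : ℕ) : ℝ) := by
        push_cast
        exact max_le_max le_rfl hA
      have hb1 : (1:ℝ) ≤ (Fintype.card S : ℝ) * max 1 ‖(Matrix.of fun (k : κ) (i : S) =>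
          g i.1 (f k) : Matrix κ S ℤ)‖ := by
        have e1 : (1:ℝ) ≤ Fintype.card S := by exact_mod_cast hSpos
        have e2 : (1:ℝ) ≤ max 1 ‖(Matrix.of fun (k : κ) (i : S) =>
          g i.1 (f k) : Matrix κ S ℤ)‖ := le_max_left _ _
        nlinarith
      have hb2 : (Fintype.card S : ℝ) * max 1 ‖(Matrix.of fun (k : κ) (i : S) =>
          g i.1 (f k) : Matrix κ S ℤ)‖ ≤ ((Fintype.card LL * max 1 H : ℕ) : ℝ) := by
        rw [Nat.cast_mul]
        apply mul_le_mul _ hA' (le_trans zero_le_one (le_max_left _ _)) (Nat.cast_nonneg _)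
        exact_mod_cast hSle
      have hexp : (Fintype.card κ : ℝ) / (Fintype.card S - Fintype.card κ) ≤
          (Fintype.card Y : ℝ) := by
        have e1 : (1:ℝ) ≤ (Fintype.card S : ℝ) - Fintype.card κ := by
          have : (Fintype.card κ : ℝ) + 1 ≤ Fintype.card S := by exact_mod_cast hcard
          linarith
        rw [div_le_iff₀ (by linarith)]
        have e2 : (Fintype.card κ : ℝ) ≤ Fintype.card Y := by exact_mod_cast hκY
        have e3 : (0:ℝ) ≤ Fintype.card Y := Nat.cast_nonneg _
        nlinarith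
      have h1 : ‖z i‖ ≤ ‖z‖ := norm_le_pi_norm z i
      have h2 : ‖z i‖ ≤ (((Fintype.card LL * max 1 H) ^ Fintype.card Y : ℕ) : ℝ) := by
        refine h1.trans (hz2.trans ?_)
        refine (Real.rpow_le_rpow_of_exponent_le hb1 hexp).trans ?_
        rw [Real.rpow_natCast, Nat.cast_pow]
        exact pow_le_pow_left₀ (by linarith) hb2 _
      rw [Int.norm_eq_abs, ← Int.cast_abs, Int.abs_eq_natAbs] at h2
      exact_mod_cast h2
  refine ⟨fun i => if h : l i ≠ 0 then z ⟨i, h⟩ else 0, fun h => ?_, fun a => ?_, fun i hi => ?_,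
    fun i => ?_⟩
  · apply hz0
    funext i
    have := congrFun h i.1
    have hi := i.2
    simp only [ne_eq, hi, not_false_iff, dif_pos, Pi.zero_apply] at this
    exact this
  · have h1 := hrel z hz1 a
    have h2 : ∑ i, (if h : l i ≠ 0 then z ⟨i, h⟩ else 0) * g i a = ∑ i : S, g i.1 a * z i := by
      have h3 : ∑ i : S, g i.1 a * z i = ∑ i : S,
          (fun i => (if h : l i ≠ 0 then z ⟨i, h⟩ else 0) * g i a) i.1 := by
        apply Finset.sum_congr rfl
        intro i _
        have hi := i.2
        simp only [ne_eq, hi, not_false_iff, dif_pos]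
        ring
      rw [h3, ← Finset.sum_subtype (Finset.univ.filter fun i => l i ≠ 0) (by simp)
        (fun i => (if h : l i ≠ 0 then z ⟨i, h⟩ else 0) * g i a), Finset.sum_filter]
      apply Finset.sum_congr rfl
      intro i _
      by_cases h : l i = 0
      · simp [h]
      · simp [h]
    rw [h2, h1]
  · simp [hi]
  · by_cases h : l i = 0
    · simp [h]
    · simp only [ne_eq, h, not_false_iff, dif_pos]
      exact hz2 _

/-- Farkas' lemma with bounded integer multipliers. -/
theorem farkas_int {H : ℕ} (hH : ∀ i a, (g i a).natAbs ≤ H)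
    (hc : ∀ l : LL → ℕ, (∀ i, l i ≤ (Fintype.card LL * max 1 H) ^ Fintype.card Y) →
      (∀ a, ∑ i, (l i : ℤ) * g i a = 0) → ∑ i, (l i : ℝ) * c i ≤ 0) :
    ∃ y : Y → ℝ, ∀ i, c i + ∑ a, (g i a : ℝ) * y a ≤ 0 := by
  rcases farkas_real' (fun i a => (g i a : ℝ)) c with h | h
  · exact h
  exfalso
  have h' : ∃ l, Val g c l := h
  obtain ⟨l, hl, hmin⟩ := exists_min_val g c h'
  obtain ⟨z, hz0, hz1, hz2, hz3⟩ := small_rel g c hH hl
  have main : ∀ z : LL → ℤ, (∀ a, ∑ i, z i * g i a = 0) → (∀ i, l i = 0 → z i = 0) →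
      (∀ i, (z i).natAbs ≤ (Fintype.card LL * max 1 H) ^ Fintype.card Y) →
      (∃ i, 0 < z i) → False := by
    intro z hz1 hz2 hz3 hp
    have hr : ∀ a, ∑ i, (z i : ℝ) * (g i a : ℝ) = 0 := by
      intro a
      exact_mod_cast congrArg (Int.cast : ℤ → ℝ) (hz1 a)
    have hpos := star g c hl hmin (fun i => (z i : ℝ)) hr
      (fun i hi => by simp [hz2 i hi]) (by obtain ⟨i, hi⟩ := hp; exact ⟨i, by exact_mod_cast hi⟩)
    have hnn : ∀ i, 0 ≤ z i := by
      by_contra hcon
      push Not at hcon
      obtain ⟨i, hi⟩ := hcon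
      have h4 := star g c hl hmin (fun i => (-(z i : ℝ))) (by
          intro a
          have := hr a
          rw [← neg_eq_zero, ← Finset.sum_neg_distrib] at this
          rw [← this]
          apply Finset.sum_congr rfl
          intro i _; ring)
        (fun i hi => by simp [hz2 i hi]) ⟨i, by
          have : (z i : ℝ) < 0 := by exact_mod_cast hi
          linarith⟩
      have h5 : ∑ i, (-(z i : ℝ)) * c i = -∑ i, (z i : ℝ) * c i := by
        rw [← Finset.sum_neg_distrib]
        apply Finset.sum_congr rfl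
        intro i _; ring
      rw [h5] at h4
      linarith
    have h6 := hc (fun i => (z i).natAbs) hz3 (by
      intro a
      rw [← hz1 a]
      apply Finset.sum_congr rfl
      intro i _
      rw [Int.natAbs_of_nonneg (hnn i)])
    have h7 : ∑ i, (((z i).natAbs : ℕ) : ℝ) * c i = ∑ i, (z i : ℝ) * c i := by
      apply Finset.sum_congr rfl
      intro i _
      rw [Nat.cast_natAbs, abs_of_nonneg (hnn i)]
    rw [h7] at h6
    linarith
  by_cases hp : ∃ i, 0 < z i
  · exact main z hz1 hz2 hz3 hp
  · push Not at hp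
    obtain ⟨i, hi⟩ : ∃ i, z i ≠ 0 := by
      by_contra hcon
      push Not at hcon
      exact hz0 (funext hcon)
    refine main (fun i => - z i) (fun a => ?_) (fun i hi => by simp [hz2 i hi])
      (fun i => by rw [Int.natAbs_neg]; exact hz3 i) ⟨i, ?_⟩
    · have := hz1 a
      rw [← neg_eq_zero, ← Finset.sum_neg_distrib] at this
      rw [← this]
      apply Finset.sum_congr rfl
      intro i _; ring
    · have := hp i
      omega

end

end Pool.Agent.Helper54.Lg
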