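import Pool.Agent.Helper54.ETRDefs

namespace Pool.Agent.Helper54.ETR

/-- Weighted degree of a term: the variables of `X` have weight `1`, all others weight `D`.
If `1 ≤ D`, then a term of weighted degree at most `D` is the sum of a polynomial of degree at
most `D` in the variables of `X` and of a linear form with integer coefficients in the other
variables. -/
def Term.wdeg (X : Finset ℕ) (D : ℕ) : Term → ℕ
  | zero => 0
  | one => 0
  | var i => if i ∈ X then 1 else D
  | add s t => max (s.wdeg X D) (t.wdeg X D)
  | sub s t => max (s.wdeg X D) (t.wdeg X D)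
  | mul s t => s.wdeg X D + t.wdeg X D

/-- The fragment: for some set `X` of variables and some `D ≥ 1` with
`(D + 1) ^ |X| ≤ N ^ c`, where `N` is the length of the encoding of the formula, all terms in
atomic formulas have weighted degree at most `D`. -/
def Form.Low (c : ℕ) (p : Form) : Prop :=
  ∃ (X : Finset ℕ) (D : ℕ), 1 ≤ D ∧ (D + 1) ^ X.card ≤ p.code.length ^ c ∧
    ∀ a ∈ p.atoms, a.1.wdeg X D ≤ D ∧ a.2.wdeg X D ≤ D

end Pool.Agent.Helper54.ETR
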