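import Pool.Agent.Helper54.ETRSem2

open Pool.Agent.Helper54.Poly

namespace Pool.Agent.Helper54.Lg

open ETR

/-- context: assignment, scale, exponents; weight of the linear variables -/
abbrev CD := Ctx × ℕ

def atomD (g : Bool × Bool → Bool) (c : CD) (a b : TRec) : Option FRec :=
  match cls0 c.1 (tadd c.1 a (tswap b)) with
  | none => none
  | some k => if decide (max a.2.2.2 b.2.2.2 ≤ c.2) then some (g k, 0) else none

def fvarD (D : ℕ) (v : Val) : Option Val :=
  match v.2.1 with
  | [] => none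
  | e :: _ => some (vtm (e.2.1, (e.2.2, (1, if e.1 then 1 else D))))

def fatomD (g : Bool × Bool → Bool) (c : CD) (v w : Val) : Option Val :=
  match atomD g c v.2.2.1 w.2.2.1 with
  | none => none
  | some f => some (vfm f)

def vstepD (c : CD) : Tok → List Val → Option (List Val)
  | Tok.zero, st => some (vtm (⟨0⟩, (⟨0⟩, (1, 0))) :: st)
  | Tok.one, st => some (vtm (⟨1 * 2 ^ c.1.2.1⟩, (⟨0⟩, (1, 0))) :: st)
  | Tok.e, st => some (vnum c.1.1 :: st)
  | Tok.s, st => un (false, false) (fun v => some (vnum v.2.1.tail)) st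
  | Tok.x, st => un (false, false) (fvarD c.2) st
  | Tok.add, st => bin (false, true) (fun v w => some (vtm (tadd c.1 v.2.2.1 w.2.2.1))) st
  | Tok.sub, st => bin (false, true) (fun v w => some (vtm (tadd c.1 v.2.2.1 (tswap w.2.2.1)))) st
  | Tok.mul, st => bin (false, true) (fun v w => some (vtm (tmul v.2.2.1 w.2.2.1))) st
  | Tok.lt, st => bin (false, true) (fatomD gLt c) st
  | Tok.le, st => bin (false, true) (fatomD gLe c) st
  | Tok.eq, st => bin (false, true) (fatomD gEq c) st
  | Tok.ge, st => bin (false, true) (fatomD gGe c) st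
  | Tok.gt, st => bin (false, true) (fatomD gGt c) st
  | Tok.and, st => bin (true, true)
      (fun v w => some (vfm (v.2.2.2.1 && w.2.2.2.1, v.2.2.2.2 + w.2.2.2.2))) st
  | Tok.or, st => bin (true, true)
      (fun v w => some (vfm (v.2.2.2.1 || w.2.2.2.1, v.2.2.2.2 + w.2.2.2.2))) st
  | Tok.not, st => un (true, true) (fun v => some (vfm (!v.2.2.2.1, v.2.2.2.2))) st

/-! ### polynomial time -/

section PTs

variable {α : Type} [TEnc α]

theorem PTatomD (g : Bool × Bool → Bool) {c : α → CD} {a b : α → TRec} (hc : PT c)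
    (ha : PT a) (hb : PT b) : PT (fun x => atomD g (c x) (a x) (b x)) := by
  have h1 := PTcls0 hc.fst (PTtadd hc.fst ha (PTtswap hb))
  have hm := PTmax ha.snd.snd.snd hb.snd.snd.snd
  have h2 : PT (fun z : α × (Bool × Bool) =>
      if decide (max (a z.1).2.2.2 (b z.1).2.2.2 ≤ (c z.1).2) then
      some (g z.2, 0) else (none : Option FRec)) := by
    have hm' := hm.comp (PT.id (α := α × (Bool × Bool))).fst
    have hc' := hc.snd.comp (PT.id (α := α × (Bool × Bool))).fst
    exact PT.ite (PT.leN hm' hc') (PT.osome ((PTg PT.id.snd).pair (PT.const 0))) (PT.const _)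
  have h3 := PT.optCase h1 (PT.const (none : Option FRec)) h2
  refine h3.congr fun x => ?_
  unfold atomD
  cases cls0 (c x).1 (tadd (c x).1 (a x) (tswap (b x))) <;> rfl

theorem PTfvarD {D : α → ℕ} {v : α → Val} (hD : PT D) (hv : PT v) :
    PT (fun x => fvarD (D x) (v x)) := by
  have h1 : PT (fun z : α × Ent × List Ent =>
      some (vtm (z.2.1.2.1, (z.2.1.2.2, (1, if z.2.1.1 then 1 else D z.1))))) := by
    have he : PT (fun z : α × Ent × List Ent => z.2.1) := PT.id.snd.fst
    have hD' := hD.comp (PT.id (α := α × Ent × List Ent)).fst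
    exact PT.osome (PTvtm (he.snd.fst.pair (he.snd.snd.pair ((PT.const 1).pair
      (PT.ite he.fst (PT.const 1) hD')))))
  have h3 := PT.listCase hv.snd.fst (PT.const (none : Option Val)) h1
  refine h3.congr fun x => ?_
  unfold fvarD
  rcases (v x).2.1 with _ | ⟨e, t⟩ <;> rfl

theorem PTfatomD (g : Bool × Bool → Bool) {c : α → CD} {v w : α → Val} (hc : PT c)
    (hv : PT v) (hw : PT w) : PT (fun x => fatomD g (c x) (v x) (w x)) := by
  have h1 := PT.optCase (PTatomD g hc hv.snd.snd.fst hw.snd.snd.fst)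
    (PT.const (none : Option Val)) (g := fun z : α × FRec => some (vfm z.2))
    (PT.osome (PTvfm PT.id.snd))
  refine h1.congr fun x => ?_
  unfold fatomD
  cases atomD g (c x) (v x).2.2.1 (w x).2.2.1 <;> rfl

end PTs

theorem PTvatomD (g : Bool × Bool → Bool) :
    PT (fun z : CD × (Tok × List Val) => bin (false, true) (fatomD g z.1) z.2.2) := by
  have hc1 : PT (fun z : (CD × (Tok × List Val)) × (Val × Val) => z.1.1) := PT.id.fst.fst
  have hv : PT (fun z : (CD × (Tok × List Val)) × (Val × Val) => z.2.1) := PT.id.snd.fst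
  have hw : PT (fun z : (CD × (Tok × List Val)) × (Val × Val) => z.2.2) := PT.id.snd.snd
  have hs : PT (fun z : CD × (Tok × List Val) => z.2.2) := PT.id.snd.snd
  have h1 : PT (fun z : (CD × (Tok × List Val)) × (Val × Val) =>
      fatomD g z.1.1 z.2.1 z.2.2) := PTfatomD g hc1 hv hw
  exact PTbin (α := CD × (Tok × List Val)) (false, true) (F := fun z => fatomD g z.1) h1 hs

theorem PTvstepD : PT (fun z : CD × (Tok × List Val) => vstepD z.1 z.2.1 z.2.2) := by
  refine PTtok (α := CD × (Tok × List Val)) (t := fun z => z.2.1) PT.id.snd.fst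
    (fun t z => vstepD z.1 t z.2.2) ?_
  have hc : PT (fun z : CD × (Tok × List Val) => z.1.1) := PT.id.fst.fst
  have hs : PT (fun z : CD × (Tok × List Val) => z.2.2) := PT.id.snd.snd
  have hc1 : PT (fun z : (CD × (Tok × List Val)) × (Val × Val) => z.1.1.1) := PT.id.fst.fst.fst
  have hv : PT (fun z : (CD × (Tok × List Val)) × (Val × Val) => z.2.1) := PT.id.snd.fst
  have hw : PT (fun z : (CD × (Tok × List Val)) × (Val × Val) => z.2.2) := PT.id.snd.snd
  have hu : PT (fun z : (CD × (Tok × List Val)) × Val => z.2) := PT.id.snd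
  have hD : PT (fun z : (CD × (Tok × List Val)) × Val => z.1.1.2) := PT.id.fst.fst.snd
  intro t
  cases t with
  | zero =>
    exact PT.osome (PT.lcons (PT.const _) hs)
  | one =>
    exact PT.osome (PT.lcons (PTvtm ((PT.bshift (PT.const (⟨1⟩ : BN)) hc.snd.fst).pair
      (PT.const _))) hs)
  | e =>
    exact PT.osome (PT.lcons (PTvnum hc.fst) hs)
  | s =>
    exact PTun (α := CD × (Tok × List Val)) (false, false)
      (F := fun _ v => some (vnum v.2.1.tail))
      (PT.osome (PTvnum (PT.tail hu.snd.fst))) hs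
  | x =>
    exact PTun (α := CD × (Tok × List Val)) (false, false) (F := fun z v => fvarD z.1.2 v)
      (PTfvarD hD hu) hs
  | add =>
    exact PTbin (α := CD × (Tok × List Val)) (false, true)
      (F := fun z v w => some (vtm (tadd z.1.1 v.2.2.1 w.2.2.1)))
      (PT.osome (PTvtm (PTtadd hc1 hv.snd.snd.fst hw.snd.snd.fst))) hs
  | sub =>
    exact PTbin (α := CD × (Tok × List Val)) (false, true)
      (F := fun z v w => some (vtm (tadd z.1.1 v.2.2.1 (tswap w.2.2.1))))
      (PT.osome (PTvtm (PTtadd hc1 hv.snd.snd.fst (PTtswap hw.snd.snd.fst)))) hs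
  | mul =>
    exact PTbin (α := CD × (Tok × List Val)) (false, true)
      (F := fun z v w => some (vtm (tmul v.2.2.1 w.2.2.1)))
      (PT.osome (PTvtm (PTtmul hv.snd.snd.fst hw.snd.snd.fst))) hs
  | lt => exact PTvatomD gLt
  | le => exact PTvatomD gLe
  | eq => exact PTvatomD gEq
  | ge => exact PTvatomD gGe
  | gt => exact PTvatomD gGt
  | and =>
    exact PTbin (α := CD × (Tok × List Val)) (true, true)
      (F := fun z v w => some (vfm (v.2.2.2.1 && w.2.2.2.1,
      v.2.2.2.2 + w.2.2.2.2))) (PT.osome (PTvfm ((PT.and hv.snd.snd.snd.fst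
        hw.snd.snd.snd.fst).pair (PT.add hv.snd.snd.snd.snd hw.snd.snd.snd.snd)))) hs
  | or =>
    exact PTbin (α := CD × (Tok × List Val)) (true, true)
      (F := fun z v w => some (vfm (v.2.2.2.1 || w.2.2.2.1,
      v.2.2.2.2 + w.2.2.2.2))) (PT.osome (PTvfm ((PT.or hv.snd.snd.snd.fst
        hw.snd.snd.snd.fst).pair (PT.add hv.snd.snd.snd.snd hw.snd.snd.snd.snd)))) hs
  | not =>
    exact PTun (α := CD × (Tok × List Val)) (true, true)
      (F := fun _ v => some (vfm (!v.2.2.2.1, v.2.2.2.2)))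
      (PT.osome (PTvfm ((PT.not hu.snd.snd.snd.fst).pair hu.snd.snd.snd.snd))) hs

end Pool.Agent.Helper54.Lg
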