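import Pool.Agent.Helper54.Lg.Farkas
import Pool.Agent.Helper54.Stage2

namespace Pool.Agent.Helper54.Lg

open Finset

/-- bound for the multipliers -/
def Bf (l y h : ℕ) : ℕ := (l * max 1 h) ^ y

/-- norm bound after elimination of the linear variables -/
def hf (l y d h : ℕ) : ℕ := d * (l * Bf l y h * h + 1)

/-- the final bound -/
def HC (v y l d h : ℕ) : ℕ := HH v 0 ((Bf l y h + 1) ^ l) 0 d (hf l y d h)

section

variable {V Y LL : Type} [Fintype V] [DecidableEq V] [Fintype Y] [DecidableEq Y] [Fintype LL]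

/-- multipliers eliminating the variables `Y` -/
abbrev Mul (g : LL → Y → ℤ) (B : ℕ) :=
  {l : LL → Fin (B + 1) // ∀ a, ∑ i, ((l i : ℕ) : ℤ) * g i a = 0}

noncomputable def eM (eL : LL → QP V Y) (g : LL → Y → ℤ) (B : ℕ) : Mul g B → QP V PEmpty :=
  fun l => ⟨∑ i, MvPolynomial.C ((l.1 i : ℕ) : ℤ) * (eL i).c, fun _ => 0, fun _ _ => 0⟩

omit [Fintype V] [DecidableEq V] [DecidableEq Y] in
theorem eM_ev (eL : LL → QP V Y) (g : LL → Y → ℤ) (B : ℕ) (l : Mul g B) (v : V → ℝ)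
    (y : PEmpty → ℝ) : (eM eL g B l).ev1 v y = ∑ i, ((l.1 i : ℕ) : ℝ) * iv v (eL i).c := by
  simp only [QP.ev1, eM, map_sum, map_mul, iv_C, Finset.univ_eq_empty, Finset.sum_empty, add_zero]
  apply Finset.sum_congr rfl
  intro i _
  push_cast
  rfl

omit [DecidableEq Y] in
theorem miniC (eL : LL → QP V Y) (g : LL → Y → ℤ)
    (hg : ∀ i a, (eL i).g a = MvPolynomial.C (g i a)) (v0 : V) {d h : ℕ} (hd1 : 1 ≤ d)
    (hdeg : ∀ i, (eL i).c.totalDegree ≤ d) (hnrm : ∀ i, (eL i).nrm ≤ h)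
    (z0 : (V → ℝ) × (Y → ℝ)) (hz0 : ∀ i, (eL i).ev1 z0.1 z0.2 ≤ 0) (B : ℝ)
    (hB : ∀ z : (V → ℝ) × (Y → ℝ), (∀ i, (eL i).ev1 z.1 z.2 ≤ 0) → z.1 v0 ≤ z0.1 v0 →
      ∀ i, |z.1 i| ≤ B) :
    ∃ z : (V → ℝ) × (Y → ℝ), (∀ i, (eL i).ev1 z.1 z.2 ≤ 0) ∧ z.1 v0 ≤ z0.1 v0 ∧
      ∃ P0 : Polynomial ℤ, P0 ≠ 0 ∧ (pSN intSN).f P0 ≤
        HC (Fintype.card V) (Fintype.card Y) (Fintype.card LL) d h ∧ evZ (z.1 v0) P0 = 0 := by
  classical
  set Bd := Bf (Fintype.card LL) (Fintype.card Y) h with hBd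
  have hev : ∀ i (v : V → ℝ) (y : Y → ℝ), (eL i).ev1 v y =
      iv v (eL i).c + ∑ a, (g i a : ℝ) * y a := by
    intro i v y
    simp only [QP.ev1, hg, iv_C]
  have hgh : ∀ i a, (g i a).natAbs ≤ h := by
    intro i a
    have h1 := (eL i).g_le (hnrm i) a
    rw [hg] at h1
    have h2 := coeff_le_mvSN (W := V) intSN (MvPolynomial.C (g i a)) 0
    rw [MvPolynomial.coeff_zero_C] at h2
    exact h2.trans h1
  -- Farkas
  have hF : ∀ v : V → ℝ, (∀ l : Mul g Bd, (eM eL g Bd l).ev1 v PEmpty.elim ≤ 0) →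
      ∃ y : Y → ℝ, ∀ i, (eL i).ev1 v y ≤ 0 := by
    intro v hv
    obtain ⟨y, hy⟩ := farkas_int g (fun i => iv v (eL i).c) hgh (by
      intro l hl hl2
      have h1 := hv ⟨fun i => ⟨l i, Nat.lt_succ_of_le (hl i)⟩, hl2⟩
      rw [eM_ev] at h1
      exact h1)
    exact ⟨y, fun i => by rw [hev]; exact hy i⟩
  have hF' : ∀ (v : V → ℝ) (y : Y → ℝ), (∀ i, (eL i).ev1 v y ≤ 0) → ∀ (l : Mul g Bd)
      (u : PEmpty → ℝ), (eM eL g Bd l).ev1 v u ≤ 0 := by
    intro v y hv l u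
    rw [eM_ev]
    have h1 : ∑ i, ((l.1 i : ℕ) : ℝ) * iv v (eL i).c =
        ∑ i, ((l.1 i : ℕ) : ℝ) * (eL i).ev1 v y := by
      have h2 : ∑ i, ((l.1 i : ℕ) : ℝ) * ∑ a, (g i a : ℝ) * y a = 0 := by
        simp only [Finset.mul_sum]
        rw [Finset.sum_comm]
        apply Finset.sum_eq_zero
        intro a _
        have h3 : ((∑ i, ((l.1 i : ℕ) : ℤ) * g i a : ℤ) : ℝ) = 0 := by rw [l.2 a]; simp
        push_cast at h3
        calc ∑ i, ((l.1 i : ℕ) : ℝ) * ((g i a : ℝ) * y a)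
            = (∑ i, ((l.1 i : ℕ) : ℝ) * (g i a : ℝ)) * y a := by
              rw [Finset.sum_mul]
              apply Finset.sum_congr rfl
              intro i _; ring
          _ = 0 := by rw [h3, zero_mul]
      simp only [hev, mul_add, Finset.sum_add_distrib]
      rw [h2, add_zero]
    rw [h1]
    apply Finset.sum_nonpos
    intro i _
    exact mul_nonpos_of_nonneg_of_nonpos (Nat.cast_nonneg _) (hv i)
  -- the eliminated system
  have hbnd : ∀ l : Mul g Bd, Bnd (eM eL g Bd l) d (hf (Fintype.card LL) (Fintype.card Y) d h) := by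
    intro l
    apply bnd_of _ hd1
    · refine ⟨?_, fun a => by simp [eM], fun a b => by simp [eM]⟩
      change (∑ i, MvPolynomial.C ((l.1 i : ℕ) : ℤ) * (eL i).c).totalDegree ≤ d
      apply MvPolynomial.totalDegree_finsetSum_le
      intro i _
      have := td_mul (td_C (W := V) ((l.1 i : ℕ) : ℤ) 0) (hdeg i)
      omega
    · have h1 : (eM eL g Bd l).nrm ≤ (mvSN V intSN).f
          (∑ i, MvPolynomial.C ((l.1 i : ℕ) : ℤ) * (eL i).c) := by
        simp [QP.nrm, eM]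
      refine h1.trans ?_
      refine ((mvSN V intSN).sum_le _ _).trans ?_
      have h2 : ∀ i ∈ (Finset.univ : Finset LL),
          (mvSN V intSN).f (MvPolynomial.C ((l.1 i : ℕ) : ℤ) * (eL i).c) ≤ Bd * h := by
        intro i _
        refine ((mvSN V intSN).mul_le _ _).trans (Nat.mul_le_mul ?_ ?_)
        · refine (mvSN_C (W := V) intSN _).trans ?_
          change (((l.1 i : ℕ) : ℤ)).natAbs ≤ Bd
          have := (l.1 i).2
          omega
        · have := hnrm i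
          unfold QP.nrm at this
          omega
      refine (Finset.sum_le_sum h2).trans ?_
      rw [Finset.sum_const, Finset.card_univ, smul_eq_mul]
      have : Fintype.card LL * (Bd * h) =
          Fintype.card LL * Bf (Fintype.card LL) (Fintype.card Y) h * h := by rw [hBd]; ring
      omega
  have hcon1 : ∀ (z : (V → ℝ) × (PEmpty → ℝ)),
      (∀ i, con (eM eL g Bd) (fun q : PEmpty => q.elim) i z ≤ 0) ↔
        ∀ l, (eM eL g Bd l).ev1 z.1 z.2 ≤ 0 := by
    intro z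
    constructor
    · intro h l
      exact h (Sum.inl l)
    · intro h i
      rcases i with l | q
      · exact h l
      · exact q.elim
  have hpe : ∀ u : PEmpty → ℝ, u = PEmpty.elim := fun u => funext fun q => q.elim
  obtain ⟨z, hz, hzle, P0, hP0, hsz, hroot⟩ := mini (eM eL g Bd) (fun q : PEmpty => q.elim) v0
    hd1 (h := hf (Fintype.card LL) (Fintype.card Y) d h) (by
      unfold hf
      exact Nat.succ_le_of_lt (Nat.mul_pos (by omega) (by omega)))
    hbnd (fun q => q.elim) (z0.1, PEmpty.elim)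
    ((hcon1 _).2 fun l => hF' _ _ hz0 l _) B (by
      intro z hz hz1
      refine ⟨?_, fun a => a.elim⟩
      have h1 := (hcon1 z).1 hz
      obtain ⟨y, hy⟩ := hF z.1 (fun l => by rw [← hpe z.2]; exact h1 l)
      exact hB (z.1, y) hy hz1)
  obtain ⟨y, hy⟩ := hF z.1 (fun l => by rw [← hpe z.2]; exact (hcon1 z).1 hz l)
  refine ⟨(z.1, y), hy, hzle, P0, hP0, hsz.trans ?_, hroot⟩
  unfold HC HH
  have hcard : Fintype.card (Mul g Bd) ≤ (Bd + 1) ^ Fintype.card LL := by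
    refine (Fintype.card_subtype_le _).trans ?_
    rw [Fintype.card_fun, Fintype.card_fin]
  have hy0 : Fintype.card PEmpty = 0 := rfl
  rw [hy0]
  apply Hb_mono (Cbn_mono hcard le_rfl) le_rfl
  · apply Cbn_pos
    unfold hf
    exact Nat.succ_le_of_lt (Nat.mul_pos (by omega) (by omega))
  · exact Nat.succ_pos _

end

end Pool.Agent.Helper54.Lg
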