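import Pool.Agent.Helper54.ETRSem2
import Pool.Agent.Helper54.Lg.Mach

open Pool.Agent.Helper54.Poly

namespace Pool.Agent.Helper54.Lg

open ETR

/-! ### values of objects -/

def tvalD (c : CD) : Term → Option TRec
  | Term.zero => some (⟨0⟩, (⟨0⟩, (1, 0)))
  | Term.one => some (⟨1 * 2 ^ c.1.2.1⟩, (⟨0⟩, (1, 0)))
  | Term.var i => match c.1.1.drop i with
    | [] => none
    | e :: _ => some (e.2.1, (e.2.2, (1, if e.1 then 1 else c.2)))
  | Term.add s t => match tvalD c s, tvalD c t with
    | some a, some b => some (tadd c.1 a b)
    | _, _ => none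
  | Term.sub s t => match tvalD c s, tvalD c t with
    | some a, some b => some (tadd c.1 a (tswap b))
    | _, _ => none
  | Term.mul s t => match tvalD c s, tvalD c t with
    | some a, some b => some (tmul a b)
    | _, _ => none

def avalD (g : Bool × Bool → Bool) (c : CD) (s t : Term) : Option FRec :=
  match tvalD c s, tvalD c t with
  | some a, some b => atomD g c a b
  | _, _ => none

def fvalD (c : CD) : Form → Option FRec
  | Form.lt s t => avalD gLt c s t
  | Form.le s t => avalD gLe c s t
  | Form.eq s t => avalD gEq c s t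
  | Form.ge s t => avalD gGe c s t
  | Form.gt s t => avalD gGt c s t
  | Form.and p q => match fvalD c p, fvalD c q with
    | some a, some b => some (a.1 && b.1, a.2 + b.2)
    | _, _ => none
  | Form.or p q => match fvalD c p, fvalD c q with
    | some a, some b => some (a.1 || b.1, a.2 + b.2)
    | _, _ => none
  | Form.not p => match fvalD c p with
    | some a => some (!a.1, a.2)
    | none => none

def ovalD (c : CD) : Ob → Option Val
  | Ob.num i => some (vnum (c.1.1.drop i))
  | Ob.tm t => match tvalD c t with
    | some r => some (vtm r)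
    | none => none
  | Ob.fm p => match fvalD c p with
    | some r => some (vfm r)
    | none => none

def ovalsD (c : CD) : List Ob → Option (List Val)
  | [] => some []
  | o :: st => match ovalD c o, ovalsD c st with
    | some v, some vs => some (v :: vs)
    | _, _ => none

theorem ovals_consD {c : CD} {o : Ob} {st : List Ob} {vs : List Val}
    (h : ovalsD c (o :: st) = some vs) :
    ∃ v vs', ovalD c o = some v ∧ ovalsD c st = some vs' ∧ vs = v :: vs' := by
  simp only [ovalsD] at h
  cases h1 : ovalD c o with
  | none => rw [h1] at h; simp at h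
  | some v =>
    cases h2 : ovalsD c st with
    | none => rw [h1, h2] at h; simp at h
    | some vs' => rw [h1, h2] at h; exact ⟨v, vs', rfl, rfl, by simpa using h.symm⟩

theorem ovals_mkD {c : CD} {o : Ob} {st : List Ob} {v : Val} {vs : List Val}
    (h1 : ovalD c o = some v) (h2 : ovalsD c st = some vs) :
    ovalsD c (o :: st) = some (v :: vs) := by
  simp [ovalsD, h1, h2]

theorem ovals_none1D {c : CD} {o : Ob} {st : List Ob} (h1 : ovalD c o = none) :
    ovalsD c (o :: st) = none := by
  simp [ovalsD, h1]

theorem ovals_none2D {c : CD} {o : Ob} {st : List Ob} (h1 : ovalsD c st = none) :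
    ovalsD c (o :: st) = none := by
  simp only [ovalsD, h1]
  cases ovalD c o <;> rfl

theorem kd_ovalD {c : CD} {o : Ob} {v : Val} (h : ovalD c o = some v) (K : Bool × Bool) :
    kd K v = decide (okind o = K) := by
  obtain ⟨k1, k2⟩ := K
  cases o with
  | num i =>
    simp only [ovalD, Option.some.injEq] at h
    subst h
    cases k1 <;> cases k2 <;> rfl
  | tm t =>
    simp only [ovalD] at h
    cases ht : tvalD c t with
    | none => rw [ht] at h; simp at h
    | some r =>
      rw [ht] at h; simp only [Option.some.injEq] at h; subst h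
      cases k1 <;> cases k2 <;> rfl
  | fm t =>
    simp only [ovalD] at h
    cases ht : fvalD c t with
    | none => rw [ht] at h; simp at h
    | some r =>
      rw [ht] at h; simp only [Option.some.injEq] at h; subst h
      cases k1 <;> cases k2 <;> rfl

theorem un_okD (c : CD) (K : Bool × Bool) (F : Val → Option Val) (G : Ob → Option Ob)
    (st : List Ob) (vs : List Val) (h : ovalsD c st = some vs)
    (hk : ∀ o, okind o ≠ K → G o = none)
    (hG : ∀ o v, okind o = K → ovalD c o = some v → F v = (G o).bind (ovalD c)) :
    un K F vs = (match st with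
      | [] => none
      | o :: t => (G o).bind fun o' => some (o' :: t)).bind (ovalsD c) := by
  cases st with
  | nil =>
    simp only [ovalsD, Option.some.injEq] at h; subst h; rfl
  | cons o t =>
    obtain ⟨v, vs', h1, h2, rfl⟩ := ovals_consD h
    simp only [un, kd_ovalD h1]
    by_cases hK : okind o = K
    · simp only [hK, decide_true, if_true]
      rw [hG o v hK h1]
      cases hGo : G o with
      | none => rfl
      | some o' =>
        simp only [Option.bind_some]
        cases ho' : ovalD c o' with
        | none => rw [ovals_none1D ho']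
        | some u => rw [ovals_mkD ho' h2]
    · simp only [hK, decide_false, Bool.false_eq_true, if_false]
      rw [hk o hK]; rfl

theorem bin_okD (c : CD) (K : Bool × Bool) (F : Val → Val → Option Val)
    (G : Ob → Ob → Option Ob)
    (st : List Ob) (vs : List Val) (h : ovalsD c st = some vs)
    (hk : ∀ o o', ¬ (okind o = K ∧ okind o' = K) → G o o' = none)
    (hG : ∀ o o' v v', okind o = K → okind o' = K → ovalD c o = some v → ovalD c o' = some v' →
      F v v' = (G o o').bind (ovalD c)) :
    bin K F vs = (match st with
      | o :: o' :: t => (G o o').bind fun o' => some (o' :: t)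
      | _ => none).bind (ovalsD c) := by
  cases st with
  | nil =>
    simp only [ovalsD, Option.some.injEq] at h; subst h; rfl
  | cons o t =>
    obtain ⟨v, vs', h1, h2, rfl⟩ := ovals_consD h
    cases t with
    | nil =>
      simp only [ovalsD, Option.some.injEq] at h2; subst h2; rfl
    | cons o' t =>
      obtain ⟨v', vs'', h3, h4, rfl⟩ := ovals_consD h2
      simp only [bin, kd_ovalD h1, kd_ovalD h3]
      by_cases hK : okind o = K ∧ okind o' = K
      · simp only [hK.1, hK.2, decide_true, Bool.and_self, if_true]
        rw [hG o o' v v' hK.1 hK.2 h1 h3]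
        cases hGo : G o o' with
        | none => rfl
        | some u =>
          simp only [Option.bind_some]
          cases ho' : ovalD c u with
          | none => rw [ovals_none1D ho']
          | some u' => rw [ovals_mkD ho' h4]
      · have hne : (decide (okind o = K) && decide (okind o' = K)) = false := by
          rcases Classical.not_and_iff_not_or_not.1 hK with h | h <;> simp [h]
        rw [hne, hk o o' hK]; rfl

theorem oval_tmD {c : CD} {t : Term} {v : Val} (h : ovalD c (Ob.tm t) = some v) :
    ∃ r, tvalD c t = some r ∧ v = vtm r := by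
  simp only [ovalD] at h
  cases ht : tvalD c t with
  | none => rw [ht] at h; simp at h
  | some r => rw [ht] at h; exact ⟨r, rfl, by simpa using h.symm⟩

theorem oval_fmD {c : CD} {t : Form} {v : Val} (h : ovalD c (Ob.fm t) = some v) :
    ∃ r, fvalD c t = some r ∧ v = vfm r := by
  simp only [ovalD] at h
  cases ht : fvalD c t with
  | none => rw [ht] at h; simp at h
  | some r => rw [ht] at h; exact ⟨r, rfl, by simpa using h.symm⟩

theorem Gbin_okD (c : CD) (F : Val → Val → Option Val) (f : Term → Term → Ob)
    (hF : ∀ a b ra rb, tvalD c a = some ra → tvalD c b = some rb →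
      F (vtm ra) (vtm rb) = ovalD c (f a b)) :
    ∀ o o' v v', okind o = (false, true) → okind o' = (false, true) → ovalD c o = some v →
      ovalD c o' = some v' → F v v' = (Gbin f o o').bind (ovalD c) := by
  intro o o' v v' h1 h2 h3 h4
  cases o with
  | num i => simp [okind] at h1
  | fm p => simp [okind] at h1
  | tm a =>
    cases o' with
    | num i => simp [okind] at h2
    | fm p => simp [okind] at h2
    | tm b =>
      obtain ⟨ra, h5, rfl⟩ := oval_tmD h3
      obtain ⟨rb, h6, rfl⟩ := oval_tmD h4
      rw [hF a b ra rb h5 h6]; rfl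

theorem GbinF_okD (c : CD) (F : Val → Val → Option Val) (f : Form → Form → Form)
    (hF : ∀ a b ra rb, fvalD c a = some ra → fvalD c b = some rb →
      F (vfm ra) (vfm rb) = ovalD c (Ob.fm (f a b))) :
    ∀ o o' v v', okind o = (true, true) → okind o' = (true, true) → ovalD c o = some v →
      ovalD c o' = some v' → F v v' = (GbinF f o o').bind (ovalD c) := by
  intro o o' v v' h1 h2 h3 h4
  cases o with
  | num i => simp [okind] at h1
  | tm p => simp [okind] at h1
  | fm a =>
    cases o' with
    | num i => simp [okind] at h2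
    | tm p => simp [okind] at h2
    | fm b =>
      obtain ⟨ra, h5, rfl⟩ := oval_fmD h3
      obtain ⟨rb, h6, rfl⟩ := oval_fmD h4
      rw [hF a b ra rb h5 h6]; rfl

theorem atom_okD (c : CD) (g : Bool × Bool → Bool) (f : Term → Term → Form)
    (hf : ∀ a b, fvalD c (f a b) = avalD g c a b) (a b : Term) (ra rb : TRec)
    (h1 : tvalD c a = some ra) (h2 : tvalD c b = some rb) :
    fatomD g c (vtm ra) (vtm rb) = ovalD c (Ob.fm (f a b)) := by
  simp only [ovalD, hf, avalD, h1, h2]
  change (match atomD g c ra rb with | none => none | some f => some (vfm f)) = _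
  cases atomD g c ra rb <;> rfl

theorem vstep_okD (c : CD) (t : Tok) (st : List Ob) (vs : List Val)
    (h : ovalsD c st = some vs) : vstepD c t vs = (pstep t st).bind (ovalsD c) := by
  cases t with
  | zero =>
    change some _ = ovalsD c (Ob.tm Term.zero :: st)
    rw [ovals_mkD rfl h]
  | one =>
    change some _ = ovalsD c (Ob.tm Term.one :: st)
    rw [ovals_mkD rfl h]
  | e =>
    change some _ = ovalsD c (Ob.num 0 :: st)
    rw [ovals_mkD rfl h]; rfl
  | s =>
    have h1 := un_okD c (false, false) (fun v => some (vnum v.2.1.tail))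
      (fun o => match o with | Ob.num i => some (Ob.num (i + 1)) | _ => none) st vs h
      (by intro o ho; cases o <;> simp_all [okind])
      (by
        intro o v ho hv
        cases o with
        | num i =>
          simp only [ovalD, Option.some.injEq] at hv
          subst hv
          simp [ovalD, vnum]
        | tm t => simp [okind] at ho
        | fm t => simp [okind] at ho)
    change un (false, false) (fun v => some (vnum v.2.1.tail)) vs = _
    rw [h1]
    rcases st with _ | ⟨_ | _ | _, st⟩ <;> rfl
  | x =>
    have h1 := un_okD c (false, false) (fvarD c.2)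
      (fun o => match o with | Ob.num i => some (Ob.tm (Term.var i)) | _ => none) st vs h
      (by intro o ho; cases o <;> simp_all [okind])
      (by
        intro o v ho hv
        cases o with
        | num i =>
          simp only [ovalD, Option.some.injEq] at hv
          subst hv
          change fvarD c.2 (vnum (c.1.1.drop i)) = ovalD c (Ob.tm (Term.var i))
          simp only [fvarD, vnum, ovalD, tvalD]
          rcases c.1.1.drop i with _ | ⟨e, l⟩ <;> rfl
        | tm t => simp [okind] at ho
        | fm t => simp [okind] at ho)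
    change un (false, false) (fvarD c.2) vs = _
    rw [h1]
    rcases st with _ | ⟨_ | _ | _, st⟩ <;> rfl
  | add =>
    have h1 := bin_okD c (false, true) (fun v w => some (vtm (tadd c.1 v.2.2.1 w.2.2.1)))
      (Gbin fun a b => Ob.tm (Term.add a b)) st vs h (Gbin_none _)
      (Gbin_okD c _ _ (by
        intro a b ra rb ha hb
        simp only [ovalD, tvalD, ha, hb]; rfl))
    change bin (false, true) (fun v w => some (vtm (tadd c.1 v.2.2.1 w.2.2.1))) vs = _
    rw [h1]
    rcases st with _ | ⟨_ | _ | _, _ | ⟨_ | _ | _, st⟩⟩ <;> rfl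
  | sub =>
    have h1 := bin_okD c (false, true) (fun v w => some (vtm (tadd c.1 v.2.2.1 (tswap w.2.2.1))))
      (Gbin fun a b => Ob.tm (Term.sub a b)) st vs h (Gbin_none _)
      (Gbin_okD c _ _ (by
        intro a b ra rb ha hb
        simp only [ovalD, tvalD, ha, hb]; rfl))
    change bin (false, true) (fun v w => some (vtm (tadd c.1 v.2.2.1 (tswap w.2.2.1)))) vs = _
    rw [h1]
    rcases st with _ | ⟨_ | _ | _, _ | ⟨_ | _ | _, st⟩⟩ <;> rfl
  | mul =>
    have h1 := bin_okD c (false, true) (fun v w => some (vtm (tmul v.2.2.1 w.2.2.1)))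
      (Gbin fun a b => Ob.tm (Term.mul a b)) st vs h (Gbin_none _)
      (Gbin_okD c _ _ (by
        intro a b ra rb ha hb
        simp only [ovalD, tvalD, ha, hb]; rfl))
    change bin (false, true) (fun v w => some (vtm (tmul v.2.2.1 w.2.2.1))) vs = _
    rw [h1]
    rcases st with _ | ⟨_ | _ | _, _ | ⟨_ | _ | _, st⟩⟩ <;> rfl
  | lt =>
    have h1 := bin_okD c (false, true) (fatomD gLt c)
      (Gbin fun a b => Ob.fm (Form.lt a b)) st vs h (Gbin_none _)
      (Gbin_okD c _ _ (atom_okD c gLt Form.lt (fun _ _ => rfl)))
    change bin (false, true) (fatomD gLt c) vs = _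
    rw [h1]
    rcases st with _ | ⟨_ | _ | _, _ | ⟨_ | _ | _, st⟩⟩ <;> rfl
  | le =>
    have h1 := bin_okD c (false, true) (fatomD gLe c)
      (Gbin fun a b => Ob.fm (Form.le a b)) st vs h (Gbin_none _)
      (Gbin_okD c _ _ (atom_okD c gLe Form.le (fun _ _ => rfl)))
    change bin (false, true) (fatomD gLe c) vs = _
    rw [h1]
    rcases st with _ | ⟨_ | _ | _, _ | ⟨_ | _ | _, st⟩⟩ <;> rfl
  | eq =>
    have h1 := bin_okD c (false, true) (fatomD gEq c)
      (Gbin fun a b => Ob.fm (Form.eq a b)) st vs h (Gbin_none _)
      (Gbin_okD c _ _ (atom_okD c gEq Form.eq (fun _ _ => rfl)))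
    change bin (false, true) (fatomD gEq c) vs = _
    rw [h1]
    rcases st with _ | ⟨_ | _ | _, _ | ⟨_ | _ | _, st⟩⟩ <;> rfl
  | ge =>
    have h1 := bin_okD c (false, true) (fatomD gGe c)
      (Gbin fun a b => Ob.fm (Form.ge a b)) st vs h (Gbin_none _)
      (Gbin_okD c _ _ (atom_okD c gGe Form.ge (fun _ _ => rfl)))
    change bin (false, true) (fatomD gGe c) vs = _
    rw [h1]
    rcases st with _ | ⟨_ | _ | _, _ | ⟨_ | _ | _, st⟩⟩ <;> rfl
  | gt =>
    have h1 := bin_okD c (false, true) (fatomD gGt c)
      (Gbin fun a b => Ob.fm (Form.gt a b)) st vs h (Gbin_none _)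
      (Gbin_okD c _ _ (atom_okD c gGt Form.gt (fun _ _ => rfl)))
    change bin (false, true) (fatomD gGt c) vs = _
    rw [h1]
    rcases st with _ | ⟨_ | _ | _, _ | ⟨_ | _ | _, st⟩⟩ <;> rfl
  | and =>
    have h1 := bin_okD c (true, true)
      (fun v w => some (vfm (v.2.2.2.1 && w.2.2.2.1, v.2.2.2.2 + w.2.2.2.2)))
      (GbinF Form.and) st vs h (GbinF_none _)
      (GbinF_okD c _ _ (by
        intro a b ra rb ha hb
        simp only [ovalD, fvalD, ha, hb]; rfl))
    change bin (true, true)
      (fun v w => some (vfm (v.2.2.2.1 && w.2.2.2.1, v.2.2.2.2 + w.2.2.2.2))) vs = _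
    rw [h1]
    rcases st with _ | ⟨_ | _ | _, _ | ⟨_ | _ | _, st⟩⟩ <;> rfl
  | or =>
    have h1 := bin_okD c (true, true)
      (fun v w => some (vfm (v.2.2.2.1 || w.2.2.2.1, v.2.2.2.2 + w.2.2.2.2)))
      (GbinF Form.or) st vs h (GbinF_none _)
      (GbinF_okD c _ _ (by
        intro a b ra rb ha hb
        simp only [ovalD, fvalD, ha, hb]; rfl))
    change bin (true, true)
      (fun v w => some (vfm (v.2.2.2.1 || w.2.2.2.1, v.2.2.2.2 + w.2.2.2.2))) vs = _
    rw [h1]
    rcases st with _ | ⟨_ | _ | _, _ | ⟨_ | _ | _, st⟩⟩ <;> rfl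
  | not =>
    have h1 := un_okD c (true, true) (fun v => some (vfm (!v.2.2.2.1, v.2.2.2.2)))
      (fun o => match o with | Ob.fm p => some (Ob.fm (Form.not p)) | _ => none) st vs h
      (by intro o ho; cases o <;> simp_all [okind])
      (by
        intro o v ho hv
        cases o with
        | num i => simp [okind] at ho
        | tm t => simp [okind] at ho
        | fm t =>
          obtain ⟨r, hr, rfl⟩ := oval_fmD hv
          simp only [Option.bind_some, ovalD, fvalD, hr]; rfl)
    change un (true, true) (fun v => some (vfm (!v.2.2.2.1, v.2.2.2.2))) vs = _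
    rw [h1]
    rcases st with _ | ⟨_ | _ | _, st⟩ <;> rfl

end Pool.Agent.Helper54.Lg
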