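import Pool.Agent.Helper54.Lg.MiniC
import Pool.Agent.Helper54.Stage3

namespace Pool.Agent.Helper54.Lg

open Finset Filter Topology

def RC (x y a1 d h : ℕ) : ℕ :=
  HC (x + 2) y (2 * a1 + 2 * x + 2 * y + 3) (d + 2) ((d + 2) * (h + 2))

def DC (x y a1 d h R : ℕ) : ℕ :=
  HC (x + 1) y (2 * a1 + 2 * x + 2 * y + 1) (d + 2) ((d + 2) * (R * h + R + 2))

theorem HC_pos (v y l d h : ℕ) : 1 ≤ HC v y l d h := Sgn.HH_pos _ _ _ _ _ _

section

variable {X Y A1 : Type} [Fintype X] [DecidableEq X] [Fintype Y] [DecidableEq Y]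
  [Fintype A1] (D : Sgn X Y A1 PEmpty)

/-- the coefficients of the variables `Y` are constants -/
def Cst : Prop := ∀ a y, ∃ z : ℤ, (D.e1 a).g y = MvPolynomial.C z

variable {D} {d h : ℕ}

omit [Fintype X] [Fintype A1] in
theorem cst_eLA (hc : Cst D) (i : Sgn.LLA X Y A1) (y : Y) :
    ∃ z : ℤ, (D.eLA i).g y = MvPolynomial.C z := by
  rcases i with ⟨a, b⟩ | ⟨x, b⟩ | ⟨y', b⟩ | j
  · obtain ⟨z, hz⟩ := hc a y
    refine ⟨al (D.s1 a) b * z, ?_⟩
    simp only [Sgn.eLA, QP.aff, hz, MvPolynomial.rename_C, MvPolynomial.C_mul]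
  · exact ⟨0, by simp [Sgn.eLA, QP.base]⟩
  · by_cases hy : y = y'
    · exact ⟨pm b, by simp [Sgn.eLA, QP.ycon, hy]⟩
    · exact ⟨0, by simp [Sgn.eLA, QP.ycon, hy]⟩
  · refine ⟨0, ?_⟩
    fin_cases j <;> simp [Sgn.eLA, QP.base]

omit [Fintype X] [Fintype A1] in
theorem cst_eLB {R : ℕ} (hc : Cst D) (i : Sgn.LLB X Y A1) (y : Y) :
    ∃ z : ℤ, (D.eLB R i).g y = MvPolynomial.C z := by
  rcases i with ⟨a, b⟩ | ⟨x, b⟩ | ⟨y', b⟩ | j
  · obtain ⟨z, hz⟩ := hc a y
    refine ⟨R * al (D.s1 a) b * z, ?_⟩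
    simp only [Sgn.eLB, QP.aff, hz, MvPolynomial.rename_C, MvPolynomial.C_mul]
  · exact ⟨0, by simp [Sgn.eLB, QP.base]⟩
  · by_cases hy : y = y'
    · exact ⟨pm b, by simp [Sgn.eLB, QP.ycon, hy]⟩
    · exact ⟨0, by simp [Sgn.eLB, QP.ycon, hy]⟩
  · exact ⟨0, by simp [Sgn.eLB, QP.base]⟩

variable (D)

theorem conA' (z : (Sgn.VA X → ℝ) × (Y → ℝ)) : (∀ i, (D.eLA i).ev1 z.1 z.2 ≤ 0) ↔
    (∀ a b, (al (D.s1 a) b : ℝ) * (D.e1 a).ev1 (fun x => z.1 (some (some x))) z.2 +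
      be (D.s1 a) * z.1 (some none) ≤ 0) ∧
    (∀ x b, (pm b : ℝ) * z.1 (some (some x)) ≤ z.1 none) ∧
    (∀ y b, (pm b : ℝ) * z.2 y ≤ z.1 none) ∧
    (1 ≤ z.1 none * z.1 (some none) ∧ z.1 (some none) ≤ 1 ∧ 0 ≤ z.1 none) := by
  have h1 := D.conA z
  rw [Sgn.con_iff] at h1
  constructor
  · intro h
    exact (h1.1 ⟨h, fun i => i.1.elim⟩).1
  · intro h
    exact (h1.2 ⟨h, fun a => a.elim⟩).1

theorem conB' {R : ℕ} (z : (Option X → ℝ) × (Y → ℝ)) : (∀ i, (D.eLB R i).ev1 z.1 z.2 ≤ 0) ↔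
    (∀ a b, (R : ℝ) * ((al (D.s1 a) b : ℝ) * (D.e1 a).ev1 (fun x => z.1 (some x)) z.2) +
      be (D.s1 a) ≤ z.1 none) ∧
    (∀ x b, (pm b : ℝ) * z.1 (some x) ≤ R + z.1 none) ∧
    (∀ y b, (pm b : ℝ) * z.2 y ≤ R + z.1 none) ∧ -1 ≤ z.1 none := by
  have h1 := D.conB (R := R) z
  rw [Sgn.con_iff] at h1
  constructor
  · intro h
    exact (h1.1 ⟨h, fun i => i.1.elim⟩).1
  · intro h
    exact (h1.2 ⟨h, fun a => a.elim⟩).1

theorem stageA (hc : Cst D) (hb : D.Bd d h) (hsol : ∃ x y, D.Sat x y) :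
    ∃ x y, D.App (RC (Fintype.card X) (Fintype.card Y) (Fintype.card A1) d h) 0 x y := by
  obtain ⟨x, y, hs1, -⟩ := hsol
  have hf1 := fun a => al_fwd ((D.e1 a).ev1 x y)
  choose σ1 hσ1 hσ1' using hf1
  set S : ℝ := 1 + ∑ a, (σ1 a)⁻¹ with hS
  have hp1 : ∀ a ∈ (Finset.univ : Finset A1), 0 ≤ (σ1 a)⁻¹ := fun a _ => (inv_pos.2 (hσ1 a)).le
  have hsum1 := Finset.sum_nonneg hp1
  have hS1 : 1 ≤ S := by linarith
  have hSpos : 0 < S := by linarith
  have hle1 : ∀ a, S⁻¹ ≤ σ1 a := by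
    intro a
    have := Finset.single_le_sum hp1 (Finset.mem_univ a)
    exact inv_le_of_inv_le₀ (hσ1 a) (by linarith)
  set ρ : ℝ := S + ∑ i, |x i| + ∑ a, |y a| with hρ
  have hx0 : 0 ≤ ∑ i, |x i| := Finset.sum_nonneg fun i _ => abs_nonneg _
  have hy0 : 0 ≤ ∑ i, |y i| := Finset.sum_nonneg fun i _ => abs_nonneg _
  have hxρ : ∀ i, |x i| ≤ ρ := fun i => by
    have := Finset.single_le_sum (f := fun i => |x i|) (fun i _ => abs_nonneg _)
      (Finset.mem_univ i)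
    linarith
  have hyρ : ∀ i, |y i| ≤ ρ := fun i => by
    have := Finset.single_le_sum (f := fun i => |y i|) (fun i _ => abs_nonneg _)
      (Finset.mem_univ i)
    linarith
  have hρS : S ≤ ρ := by linarith
  let z0 : (Sgn.VA X → ℝ) × (Y → ℝ) :=
    (fun v => match v with | none => ρ | some none => S⁻¹ | some (some i) => x i, y)
  have hz0 : ∀ i, (D.eLA i).ev1 z0.1 z0.2 ≤ 0 := by
    rw [conA']
    refine ⟨fun a b => ?_, fun i b => pm_of_abs (hxρ i) b,
      fun i b => pm_of_abs (hyρ i) b, ?_, ?_, ?_⟩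
    · have := hσ1' a S⁻¹ (inv_pos.2 hSpos).le (hle1 a) b
      rw [hs1 a] at this
      exact this
    · change 1 ≤ ρ * S⁻¹
      rw [← div_eq_mul_inv, le_div_iff₀ hSpos, one_mul]; exact hρS
    · exact inv_le_one_of_one_le₀ hS1
    · change 0 ≤ ρ; linarith
  choose g hg using cst_eLA hc
  obtain ⟨z, hz, _, P0, hP0, hsz, hroot⟩ := miniC D.eLA g hg none (d := d + 2)
    (h := (d + 2) * (h + 2)) (by omega) (fun i => (Sgn.bnd_eLA hb i).deg.c)
    (fun i => (Sgn.bnd_eLA hb i).nrm) z0 hz0 (ρ + 1) (by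
      intro z hz hz1
      rw [conA'] at hz
      obtain ⟨_, g2, g3, g4, g5, g6⟩ := hz
      have hz1' : z.1 none ≤ ρ := hz1
      intro i
      rcases i with _ | _ | i
      · rw [abs_of_nonneg g6]; linarith
      · have hpos : 0 ≤ z.1 (some none) := by
          by_contra hc; push Not at hc
          nlinarith
        rw [abs_of_nonneg hpos]; linarith
      · exact (abs_of_pm (g2 i)).trans (by linarith))
  have hcard : HC (Fintype.card (Sgn.VA X)) (Fintype.card Y) (Fintype.card (Sgn.LLA X Y A1))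
      (d + 2) ((d + 2) * (h + 2)) =
      RC (Fintype.card X) (Fintype.card Y) (Fintype.card A1) d h := by
    unfold RC
    simp only [Fintype.card_option, Fintype.card_sum, Fintype.card_prod, Fintype.card_bool,
      Fintype.card_fin]
    congr 1 <;> ring
  rw [hcard] at hsz
  have hR1 : 1 ≤ RC (Fintype.card X) (Fintype.card Y) (Fintype.card A1) d h := HC_pos _ _ _ _ _
  have hup := root_upper P0 hP0 _ hroot
  set R : ℕ := RC (Fintype.card X) (Fintype.card Y) (Fintype.card A1) d h with hR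
  have hR1' : (1 : ℝ) ≤ R := by exact_mod_cast hR1
  have hle : |z.1 none| ≤ R := hup.trans (by exact_mod_cast hsz)
  rw [conA'] at hz
  obtain ⟨g1, g2, g3, g4, g5, g6⟩ := hz
  rw [abs_of_nonneg g6] at hle
  have hpos : 0 < z.1 (some none) := by
    by_contra hc; push Not at hc
    nlinarith
  have hRσ : 1 ≤ R * z.1 (some none) := by nlinarith
  refine ⟨fun x => z.1 (some (some x)), z.2, fun a b => ?_, fun a => a.elim, fun i => ?_,
    fun i => ?_⟩
  · have h1 := g1 a b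
    have h2 : (0 : ℝ) ≤ be (D.s1 a) := by exact_mod_cast be_nonneg _
    nlinarith
  · exact (abs_of_pm (g2 i)).trans (by linarith)
  · exact (abs_of_pm (g3 i)).trans (by linarith)

theorem stageB (hc : Cst D) (hb : D.Bd d h) {R : ℕ} (hR : 1 ≤ R) (δ : ℝ) (hδ0 : 0 ≤ δ)
    (hδ : δ * (DC (Fintype.card X) (Fintype.card Y) (Fintype.card A1) d h R : ℕ) < 1)
    (happ : ∃ x y, D.App R δ x y) :
    ∃ x y, D.Sat x y := by
  obtain ⟨x, y, hs1, -, hx, hy⟩ := happ
  let z0 : (Option X → ℝ) × (Y → ℝ) :=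
    (fun v => match v with | none => δ | some i => x i, y)
  have hR0 : (0 : ℝ) < R := by exact_mod_cast hR
  have hz0 : ∀ i, (D.eLB R i).ev1 z0.1 z0.2 ≤ 0 := by
    rw [conB']
    exact ⟨fun a b => hs1 a b, fun i b => pm_of_abs (hx i) b,
      fun i b => pm_of_abs (hy i) b, by change -1 ≤ δ; linarith⟩
  choose g hg using cst_eLB (R := R) hc
  obtain ⟨z, hz, hzle, P0, hP0, hsz, hroot⟩ := miniC (D.eLB R) g hg none (d := d + 2)
    (h := (d + 2) * (R * h + R + 2)) (by omega) (fun i => (Sgn.bnd_eLB hb i).deg.c)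
    (fun i => (Sgn.bnd_eLB hb i).nrm) z0 hz0 (R + δ + 1) (by
      intro z hz hz1
      rw [conB'] at hz
      obtain ⟨_, g2, g3, g4⟩ := hz
      have hz1' : z.1 none ≤ δ := hz1
      intro i
      rcases i with _ | i
      · rw [abs_le]; constructor <;> linarith
      · exact (abs_of_pm (g2 i)).trans (by linarith))
  have hzle' : z.1 none ≤ δ := hzle
  have hcard : HC (Fintype.card (Option X)) (Fintype.card Y) (Fintype.card (Sgn.LLB X Y A1))
      (d + 2) ((d + 2) * (R * h + R + 2)) =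
      DC (Fintype.card X) (Fintype.card Y) (Fintype.card A1) d h R := by
    unfold DC
    simp only [Fintype.card_option, Fintype.card_sum, Fintype.card_prod, Fintype.card_bool,
      Fintype.card_fin]
    congr 1 <;> ring
  rw [hcard] at hsz
  have hle : z.1 none ≤ 0 := by
    by_contra hc
    push Not at hc
    have h1 := root_lower P0 hP0 _ hc.ne' hroot
    rw [abs_of_pos hc] at h1
    have h2 : (((pSN intSN).f P0 : ℕ) : ℝ) ≤ (DC (Fintype.card X) (Fintype.card Y)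
      (Fintype.card A1) d h R : ℕ) := by exact_mod_cast hsz
    have h3 : z.1 none * (((pSN intSN).f P0 : ℕ) : ℝ) ≤ δ * (DC (Fintype.card X)
      (Fintype.card Y) (Fintype.card A1) d h R : ℕ) :=
      mul_le_mul hzle' h2 (Nat.cast_nonneg _) hδ0
    linarith
  rw [conB'] at hz
  obtain ⟨g1, _, _, _⟩ := hz
  exact ⟨fun x => z.1 (some x), z.2, fun a => al_bwd _ _ R hR0 fun b => (g1 a b).trans hle,
    fun a => a.elim⟩

end

end Pool.Agent.Helper54.Lg
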