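import Pool.Agent.Helper54.ETRSys
import Pool.Agent.Helper54.Lg.Defs

namespace Pool.Agent.Helper54.ETR

variable {n : ℕ} {X : Finset ℕ} {D : ℕ}

theorem deg_le_wdeg (t : Term) : D * t.deg X ≤ t.wdeg X D := by
  induction t with
  | zero => simp [Term.deg]
  | one => simp [Term.deg]
  | var i =>
    simp only [Term.deg, Term.wdeg]
    split_ifs <;> simp
  | add s t ihs iht | sub s t ihs iht =>
    simp only [Term.deg, Term.wdeg]
    rcases le_total (s.deg X) (t.deg X) with h | h
    · rw [max_eq_right h]; exact iht.trans (le_max_right _ _)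
    · rw [max_eq_left h]; exact ihs.trans (le_max_left _ _)
  | mul s t ihs iht =>
    simp only [Term.deg, Term.wdeg, Nat.mul_add]
    omega

theorem deg_le_one (hD : 1 ≤ D) (t : Term) (h : t.wdeg X D ≤ D) : t.deg X ≤ 1 := by
  have h1 := deg_le_wdeg (X := X) (D := D) t
  by_contra hc
  have h2 : D * 2 ≤ D * t.deg X := Nat.mul_le_mul_left _ (by omega)
  omega

theorem deg_zero (t : Term) (h : t.wdeg X D < D) : t.deg X = 0 := by
  have h1 := deg_le_wdeg (X := X) (D := D) t
  by_contra hc
  have h2 : D * 1 ≤ D * t.deg X := Nat.mul_le_mul_left _ (by omega)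
  omega

/-- terms of weighted degree zero are constants -/
theorem qp_wdeg0 (hD : 1 ≤ D) (t : Term) (h : t.wdeg X D = 0) :
    ∃ z : ℤ, (qp n X t).c = MvPolynomial.C z := by
  induction t with
  | zero => exact ⟨0, by simp [qp]⟩
  | one => exact ⟨1, by simp [qp]⟩
  | var i =>
    simp only [Term.wdeg] at h
    split_ifs at h <;> omega
  | add s t ihs iht =>
    simp only [Term.wdeg] at h
    obtain ⟨a, ha⟩ := ihs (by omega)
    obtain ⟨b, hb⟩ := iht (by omega)
    exact ⟨a + b, by simp [qp, QP.addQ, ha, hb]⟩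
  | sub s t ihs iht =>
    simp only [Term.wdeg] at h
    obtain ⟨a, ha⟩ := ihs (by omega)
    obtain ⟨b, hb⟩ := iht (by omega)
    exact ⟨a - b, by simp [qp, QP.subQ, ha, hb]⟩
  | mul s t ihs iht =>
    simp only [Term.wdeg] at h
    obtain ⟨a, ha⟩ := ihs (by omega)
    obtain ⟨b, hb⟩ := iht (by omega)
    exact ⟨a * b, by simp [qp, QP.mulQ, ha, hb]⟩

/-- the coefficients of the linear variables are constants -/
theorem qp_cst (hD : 1 ≤ D) (t : Term) (h : t.wdeg X D ≤ D) (a : VY n X) :
    ∃ z : ℤ, (qp n X t).g a = MvPolynomial.C z := by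
  induction t with
  | zero => exact ⟨0, by simp [qp]⟩
  | one => exact ⟨0, by simp [qp]⟩
  | var i =>
    simp only [qp]
    split_ifs with h1 h2
    · exact ⟨0, by simp⟩
    · by_cases ha : a = ⟨⟨i, h1⟩, h2⟩
      · exact ⟨1, by simp [ha]⟩
      · exact ⟨0, by simp [ha]⟩
    · exact ⟨0, by simp⟩
  | add s t ihs iht =>
    simp only [Term.wdeg] at h
    obtain ⟨u, hu⟩ := ihs (by omega)
    obtain ⟨v, hv⟩ := iht (by omega)
    exact ⟨u + v, by simp [qp, QP.addQ, hu, hv]⟩
  | sub s t ihs iht =>
    simp only [Term.wdeg] at h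
    obtain ⟨u, hu⟩ := ihs (by omega)
    obtain ⟨v, hv⟩ := iht (by omega)
    exact ⟨u - v, by simp [qp, QP.subQ, hu, hv]⟩
  | mul s t ihs iht =>
    simp only [Term.wdeg] at h
    obtain ⟨u, hu⟩ := ihs (by omega)
    obtain ⟨v, hv⟩ := iht (by omega)
    have hg0 : ∀ r : Term, r.wdeg X D < D → (qp n X r).g a = 0 := fun r hr =>
      (qp_deg0 r (deg_zero r hr)).1 a
    rcases Nat.eq_zero_or_pos (s.wdeg X D) with hs | hs
    · obtain ⟨p, hp⟩ := qp_wdeg0 (n := n) hD s hs
      have := hg0 s (by omega)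
      exact ⟨p * v, by simp [qp, QP.mulQ, hp, hv, this]⟩
    · rcases Nat.eq_zero_or_pos (t.wdeg X D) with ht | ht
      · obtain ⟨p, hp⟩ := qp_wdeg0 (n := n) hD t ht
        have := hg0 t (by omega)
        exact ⟨u * p, by simp [qp, QP.mulQ, hp, hu, this]⟩
      · have h1 := hg0 s (by omega)
        have h2 := hg0 t (by omega)
        exact ⟨0, by simp [qp, QP.mulQ, h1, h2]⟩

/-- degree of the part in `X` -/
theorem qp_cdeg (hD : 1 ≤ D) (t : Term) : (qp n X t).c.totalDegree ≤ t.wdeg X D := by
  induction t with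
  | zero => simp [qp]
  | one => simp [qp]
  | var i =>
    simp only [qp, Term.wdeg]
    split_ifs with h1 h2
    · exact td_X _
    · simp
    · simp
    · simp
  | add s t ihs iht =>
    exact td_add (ihs.trans (le_max_left _ _)) (iht.trans (le_max_right _ _))
  | sub s t ihs iht =>
    exact td_sub (ihs.trans (le_max_left _ _)) (iht.trans (le_max_right _ _))
  | mul s t ihs iht => exact td_mul ihs iht

theorem qp_degD (hD : 1 ≤ D) (t : Term) (h : t.wdeg X D ≤ D) : (qp n X t).DegLe D := by
  refine ⟨(qp_cdeg hD t).trans h, fun a => ?_, fun a b => ?_⟩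
  · obtain ⟨z, hz⟩ := qp_cst (n := n) hD t h a
    rw [hz, MvPolynomial.totalDegree_C]; exact Nat.zero_le _
  · rw [qp_deg1 t (deg_le_one hD t h) a b]; simp

/-- changing the weight of the linear variables -/
theorem wdeg_change {E : ℕ} (hD : 1 ≤ D) (t : Term) (h : t.wdeg X D ≤ D) (ht : tsz t ≤ E) :
    t.wdeg X E ≤ E ∧ (t.wdeg X D < D → t.wdeg X E = t.wdeg X D) ∧
      (t.wdeg X D < D → t.wdeg X E ≤ tsz t) := by
  induction t with
  | zero => simp [Term.wdeg]
  | one => simp [Term.wdeg]
  | var i =>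
    have h1 : 1 ≤ tsz (Term.var i) := by simp [tsz, Term.toks]
    simp only [Term.wdeg] at h ⊢
    split_ifs at h ⊢ with hx
    · exact ⟨by omega, fun _ => rfl, fun _ => h1⟩
    · exact ⟨le_rfl, fun h => absurd h (lt_irrefl _), fun h => absurd h (lt_irrefl _)⟩
  | add s t ihs iht | sub s t ihs iht =>
    have e : tsz (Term.add s t) = tsz s + tsz t + 1 := by simp [tsz, Term.toks]
    have e' : tsz (Term.sub s t) = tsz s + tsz t + 1 := by simp [tsz, Term.toks]
    first | rw [e] at ht ⊢ | rw [e'] at ht ⊢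
    simp only [Term.wdeg] at h ⊢
    obtain ⟨s1, s2, s3⟩ := ihs (by omega) (by omega)
    obtain ⟨t1, t2, t3⟩ := iht (by omega) (by omega)
    refine ⟨max_le s1 t1, fun hl => ?_, fun hl => ?_⟩
    · rw [s2 (by omega), t2 (by omega)]
    · have := s3 (by omega)
      have := t3 (by omega)
      omega
  | mul s t ihs iht =>
    have e : tsz (Term.mul s t) = tsz s + tsz t + 1 := by simp [tsz, Term.toks]
    rw [e] at ht ⊢
    simp only [Term.wdeg] at h ⊢
    obtain ⟨s1, s2, s3⟩ := ihs (by omega) (by omega)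
    obtain ⟨t1, t2, t3⟩ := iht (by omega) (by omega)
    refine ⟨?_, fun hl => ?_, fun hl => ?_⟩
    · by_cases hs : s.wdeg X D < D
      · by_cases ht' : t.wdeg X D < D
        · have := s3 hs
          have := t3 ht'
          omega
        · have : s.wdeg X D = 0 := by omega
          have := s2 hs
          omega
      · have : t.wdeg X D = 0 := by omega
        have := t2 (by omega)
        omega
    · rw [s2 (by omega), t2 (by omega)]
    · have := s3 (by omega)
      have := t3 (by omega)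
      omega

end Pool.Agent.Helper54.ETR
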