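import Pool.Agent.Helper54.ETRFin
import Pool.Agent.Helper54.Lg.SysC
import Pool.Agent.Helper54.Lg.StageC
import Pool.Agent.Helper54.Lg.Sem

section
namespace Pool.Agent.Helper54.Lg

open Finset ETR

variable (n : ℕ) (X : Finset ℕ)

/-- the system of all atoms -/
noncomputable def sysD (p : Form) (sg : Term × Term → SignType) :
    Sgn (VX n X) (VY n X) (Fin p.atoms.length) PEmpty where
  e1 a := (qp n X (p.atoms.get a).1).subQ (qp n X (p.atoms.get a).2)
  e2 a := a.elim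
  s1 a := sg (p.atoms.get a)
  s2 a := a.elim

/-- hypotheses on the formula -/
structure GoodD (n S : ℕ) (X : Finset ℕ) (D : ℕ) (p : Form) : Prop where
  D1 : 1 ≤ D
  deg : ∀ a ∈ p.atoms, a.1.wdeg X D ≤ D ∧ a.2.wdeg X D ≤ D
  v1 : ∀ a ∈ p.atoms, VarsLt n a.1
  v2 : ∀ a ∈ p.atoms, VarsLt n a.2
  sz : ∀ a ∈ p.atoms, tsz a.1 ≤ S ∧ tsz a.2 ≤ S

variable {n X} {S D : ℕ} {p : Form}

theorem mem_at (a : Fin p.atoms.length) : p.atoms.get a ∈ p.atoms := List.get_mem _ _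

theorem sysD_e1 (hg : GoodD n S X D p) (sg : Term × Term → SignType) (x : ℕ → ℝ)
    (a : Fin p.atoms.length) : ((sysD n X p sg).e1 a).ev1 (rx x) (ry x) =
      (p.atoms.get a).1.eval x - (p.atoms.get a).2.eval x := by
  have h1 := mem_at a
  obtain ⟨h2, h3⟩ := hg.deg _ h1
  change ((qp n X (p.atoms.get a).1).subQ (qp n X (p.atoms.get a).2)).ev1 _ _ = _
  rw [ev1_sub, qp_eval1 x _ (deg_le_one hg.D1 _ h2) (hg.v1 _ h1),
    qp_eval1 x _ (deg_le_one hg.D1 _ h3) (hg.v2 _ h1)]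

theorem sysD_cst (hg : GoodD n S X D p) (sg : Term × Term → SignType) :
    Cst (sysD n X p sg) := by
  intro a y
  have h1 := mem_at a
  obtain ⟨h2, h3⟩ := hg.deg _ h1
  obtain ⟨u, hu⟩ := qp_cst (n := n) hg.D1 _ h2 y
  obtain ⟨v, hv⟩ := qp_cst (n := n) hg.D1 _ h3 y
  exact ⟨u - v, by
    change (qp n X (p.atoms.get a).1).g y - (qp n X (p.atoms.get a).2).g y = _
    rw [hu, hv, MvPolynomial.C_sub]⟩

theorem atoms_iff' (P : Term × Term → Prop) : (∀ a ∈ p.atoms, P a) ↔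
    ∀ a, P (p.atoms.get a) := by
  constructor
  · intro h a
    exact h _ (mem_at a)
  · intro h a ha
    obtain ⟨i, hi⟩ := List.get_of_mem ha
    rw [← hi]; exact h i

theorem sysD_bd (hg : GoodD n S X D p) (sg : Term × Term → SignType) :
    (sysD n X p sg).Bd D (2 ^ (S + 1)) := by
  have key : ∀ a ∈ p.atoms, ((qp n X a.1).subQ (qp n X a.2)).DegLe D ∧
      ((qp n X a.1).subQ (qp n X a.2)).nrm ≤ 2 ^ (S + 1) := by
    intro a ha
    obtain ⟨h1, h2⟩ := hg.sz a ha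
    obtain ⟨d1, d2⟩ := hg.deg a ha
    refine ⟨deg_subQ (qp_degD hg.D1 _ d1) (qp_degD hg.D1 _ d2), ?_⟩
    refine (nrm_subQ _ _).trans ((Nat.add_le_add (qp_nrm _) (qp_nrm _)).trans ?_)
    have h3 : 2 ^ tsz a.1 ≤ 2 ^ S := Nat.pow_le_pow_right (by norm_num) h1
    have h4 : 2 ^ tsz a.2 ≤ 2 ^ S := Nat.pow_le_pow_right (by norm_num) h2
    rw [pow_succ]; omega
  exact ⟨fun a => (key _ (mem_at a)).1, fun a => a.elim,
    fun a => (key _ (mem_at a)).2, fun a => a.elim⟩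

theorem satD_iff (hg : GoodD n S X D p) (sg : Term × Term → SignType) (x : ℕ → ℝ) :
    (sysD n X p sg).Sat (rx x) (ry x) ↔
      ∀ a ∈ p.atoms, SignType.sign (a.1.eval x - a.2.eval x) = sg a := by
  rw [atoms_iff']
  unfold Sgn.Sat
  simp only [sysD_e1 hg]
  constructor
  · intro h; exact h.1
  · intro h; exact ⟨h, fun a => a.elim⟩

theorem appD_iff (hg : GoodD n S X D p) (sg : Term × Term → SignType) (R δ : ℝ) (x : ℕ → ℝ) :
    (sysD n X p sg).App R δ (rx x) (ry x) ↔ Rob n R δ sg x p.atoms := by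
  unfold Sgn.App
  simp only [sysD_e1 hg]
  constructor
  · rintro ⟨h1, -, h3, h4⟩
    refine ⟨(atoms_iff' _).2 h1, fun i hi => ?_⟩
    by_cases hx : i ∈ X
    · exact h3 ⟨⟨i, hi⟩, hx⟩
    · exact h4 ⟨⟨i, hi⟩, hx⟩
  · intro h
    exact ⟨(atoms_iff' _).1 h.at', fun a => a.elim, fun i => h.bd _ i.1.2, fun i => h.bd _ i.1.2⟩

/-- completeness -/
theorem certA (hg : GoodD n S X D p) (hsol : ∃ x : ℕ → ℝ, p.Holds x) :
    ∃ (sg : Term × Term → SignType) (x : ℕ → ℝ),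
      Rob n (RC (Fintype.card (VX n X)) (Fintype.card (VY n X)) p.atoms.length
        D (2 ^ (S + 1)) : ℕ) 0 sg x p.atoms ∧ p.tv sg = true := by
  obtain ⟨x, hx⟩ := hsol
  set sg : Term × Term → SignType := fun a => SignType.sign (a.1.eval x - a.2.eval x) with hsg
  have h1 : (sysD n X p sg).Sat (rx x) (ry x) := (satD_iff hg sg x).2 fun a _ => rfl
  obtain ⟨x', y', h2⟩ := stageA (sysD n X p sg) (sysD_cst hg sg) (sysD_bd hg sg) ⟨_, _, h1⟩
  have h3 := (appD_iff hg sg _ _ (asm x' y')).1 (by rw [rx_asm, ry_asm]; exact h2)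
  simp only [Fintype.card_fin] at h3
  exact ⟨sg, asm x' y', h3, (holds_iff x sg p fun a _ => rfl).1 hx⟩

/-- soundness -/
theorem certB (hg : GoodD n S X D p) (sg : Term × Term → SignType) (x : ℕ → ℝ) (R : ℕ)
    (hR : 1 ≤ R) (δ : ℝ) (hδ0 : 0 ≤ δ)
    (hδ : δ * (DC (Fintype.card (VX n X)) (Fintype.card (VY n X)) p.atoms.length
        D (2 ^ (S + 1)) R : ℕ) < 1) (h : Rob n R δ sg x p.atoms)
    (htv : p.tv sg = true) : ∃ x : ℕ → ℝ, p.Holds x := by
  rw [← appD_iff hg] at h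
  obtain ⟨x', y', h2⟩ := stageB (sysD n X p sg) (sysD_cst hg sg) (sysD_bd hg sg) hR δ hδ0
    (by simpa only [Fintype.card_fin] using hδ) ⟨_, _, h⟩
  have h3 : (sysD n X p sg).Sat (rx (asm x' y')) (ry (asm x' y')) := by
    rw [rx_asm, ry_asm]; exact h2
  exact ⟨asm x' y', (holds_iff _ sg p ((satD_iff hg sg _).1 h3)).2 htv⟩

/-! ### numerical bounds -/

/-- the exponent of the bound -/
def FF (T N M : ℕ) : ℕ :=
  (1 + (6 * T ^ 3 + 12 * T ^ 2 + 21 * T + 13) * ((N + 2) * (6 * N + 13))) *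
    (M ^ 5 * (6 * N + 13) ^ 2)

theorem HC_le {v y l h T N M x : ℕ} (hv : v ≤ x + 2) (hy : y ≤ T) (hl : l ≤ T) (hdT : D + 2 ≤ T)
    (hh1 : 1 ≤ h) (hh : h ≤ 2 ^ T) (hx : x ≤ N) (hD1 : 1 ≤ D) (hDN : D ≤ N)
    (hM : (D + 1) ^ x ≤ M) : HC v y l (D + 2) h ≤ 2 ^ FF T N M := by
  have hTT : T ≤ 2 ^ T := Nat.lt_two_pow_self.le
  have hB : Bf l y h ≤ 2 ^ (2 * T ^ 2) := by
    unfold Bf
    rw [max_eq_right hh1]
    calc (l * h) ^ y ≤ (2 ^ T * 2 ^ T) ^ y :=
          Nat.pow_le_pow_left (Nat.mul_le_mul (hl.trans hTT) hh) _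
      _ = 2 ^ (2 * T * y) := by rw [← pow_add, ← pow_mul]; congr 1; ring
      _ ≤ 2 ^ (2 * T ^ 2) := by
          apply Nat.pow_le_pow_right (by norm_num)
          have : T * y ≤ T * T := Nat.mul_le_mul_left _ hy
          nlinarith
  have hB1 : Bf l y h + 1 ≤ 2 ^ (2 * T ^ 2 + 1) := by
    rw [pow_succ]
    have : 1 ≤ 2 ^ (2 * T ^ 2) := Nat.one_le_two_pow
    omega
  have hL : (Bf l y h + 1) ^ l + 0 + 1 ≤ 2 ^ (2 * T ^ 3 + T + 1) := by
    have h1 : (Bf l y h + 1) ^ l ≤ 2 ^ (2 * T ^ 3 + T) := by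
      calc (Bf l y h + 1) ^ l ≤ (2 ^ (2 * T ^ 2 + 1)) ^ l := Nat.pow_le_pow_left hB1 _
        _ = 2 ^ ((2 * T ^ 2 + 1) * l) := by rw [← pow_mul]
        _ ≤ 2 ^ (2 * T ^ 3 + T) := by
          apply Nat.pow_le_pow_right (by norm_num)
          have : (2 * T ^ 2 + 1) * l ≤ (2 * T ^ 2 + 1) * T := Nat.mul_le_mul_left _ hl
          nlinarith
    rw [pow_succ]
    have : 1 ≤ 2 ^ (2 * T ^ 3 + T) := Nat.one_le_two_pow
    omega
  have hhf : hf l y (D + 2) h ≤ 2 ^ (2 * T ^ 2 + 3 * T + 1) := by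
    unfold hf
    have h1 : l * Bf l y h * h ≤ 2 ^ (2 * T ^ 2 + 2 * T) := by
      calc l * Bf l y h * h ≤ 2 ^ T * 2 ^ (2 * T ^ 2) * 2 ^ T :=
            Nat.mul_le_mul (Nat.mul_le_mul (hl.trans hTT) hB) hh
        _ = 2 ^ (2 * T ^ 2 + 2 * T) := by rw [← pow_add, ← pow_add]; congr 1; ring
    have h2 : l * Bf l y h * h + 1 ≤ 2 ^ (2 * T ^ 2 + 2 * T + 1) := by
      rw [pow_succ]
      have : 1 ≤ 2 ^ (2 * T ^ 2 + 2 * T) := Nat.one_le_two_pow
      omega
    calc (D + 2) * (l * Bf l y h * h + 1) ≤ 2 ^ T * 2 ^ (2 * T ^ 2 + 2 * T + 1) :=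
          Nat.mul_le_mul (hdT.trans hTT) h2
      _ = 2 ^ (2 * T ^ 2 + 3 * T + 1) := by rw [← pow_add]; congr 1; ring
  have hC : Cbn 0 ((Bf l y h + 1) ^ l) 0 (hf l y (D + 2) h) ≤
      2 ^ (6 * T ^ 3 + 12 * T ^ 2 + 21 * T + 13) := by
    unfold Cbn
    set L := (Bf l y h + 1) ^ l with hLd
    set H := hf l y (D + 2) h with hHd
    have h1 : H ^ 2 ≤ 2 ^ (4 * T ^ 2 + 6 * T + 2) := by
      calc H ^ 2 ≤ (2 ^ (2 * T ^ 2 + 3 * T + 1)) ^ 2 := Nat.pow_le_pow_left hhf _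
        _ = _ := by rw [← pow_mul]; congr 1; ring
    have h2 : (L + 0 + 1) * H ^ 2 ≤ 2 ^ (2 * T ^ 3 + 4 * T ^ 2 + 7 * T + 3) := by
      calc (L + 0 + 1) * H ^ 2 ≤ 2 ^ (2 * T ^ 3 + T + 1) * 2 ^ (4 * T ^ 2 + 6 * T + 2) :=
            Nat.mul_le_mul hL h1
        _ = _ := by rw [← pow_add]; congr 1; ring
    have h3 : 3 * (L + 0 + 1) * H ^ 2 ≤ 2 ^ (2 * T ^ 3 + 4 * T ^ 2 + 7 * T + 5) := by
      calc 3 * (L + 0 + 1) * H ^ 2 = 3 * ((L + 0 + 1) * H ^ 2) := by ring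
        _ ≤ 2 ^ 2 * 2 ^ (2 * T ^ 3 + 4 * T ^ 2 + 7 * T + 3) :=
            Nat.mul_le_mul (by norm_num) h2
        _ = _ := by rw [← pow_add]; congr 1; ring
    have h4 : (((0 + 1) * (2 * (L + 0 + 1) * H ^ 2)) ^ (0 + 1)) ^ 2 ≤
        2 ^ (4 * T ^ 3 + 8 * T ^ 2 + 14 * T + 8) := by
      rw [zero_add, one_mul, pow_one]
      calc (2 * (L + 0 + 1) * H ^ 2) ^ 2 = (2 ^ 1 * ((L + 0 + 1) * H ^ 2)) ^ 2 := by ring
        _ ≤ (2 ^ 1 * 2 ^ (2 * T ^ 3 + 4 * T ^ 2 + 7 * T + 3)) ^ 2 :=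
            Nat.pow_le_pow_left (Nat.mul_le_mul_left _ h2) _
        _ = _ := by rw [← pow_add, ← pow_mul]; congr 1; ring
    calc _ ≤ 2 ^ (2 * T ^ 3 + 4 * T ^ 2 + 7 * T + 5) * 2 ^ (4 * T ^ 3 + 8 * T ^ 2 + 14 * T + 8) :=
          Nat.mul_le_mul h3 h4
      _ = _ := by rw [← pow_add]; congr 1; ring
  unfold HC HH
  have hNb : Nb 0 (D + 2) = 6 * D + 13 := by unfold Nb; ring
  have hC1 : 1 ≤ Cbn 0 ((Bf l y h + 1) ^ l) 0 (hf l y (D + 2) h) := by
    apply Cbn_pos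
    unfold hf
    exact Nat.succ_le_of_lt (Nat.mul_pos (by omega) (by omega))
  rw [hNb]
  refine (Hb_mono hC (show v + 0 ≤ x + 2 by omega) hC1 (by omega)).trans ?_
  refine (Hb_le (E := 6 * T ^ 3 + 12 * T ^ 2 + 21 * T + 13) le_rfl).trans ?_
  apply Nat.pow_le_pow_right (by norm_num)
  unfold FF
  apply Nat.mul_le_mul
  · apply Nat.add_le_add_left
    apply Nat.mul_le_mul_left
    exact Nat.mul_le_mul (by omega) (by omega)
  · rw [pow_add]
    apply Nat.mul_le_mul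
    · have h5 : 6 * D + 13 ≤ (D + 1) ^ 5 := by
        obtain ⟨e, rfl⟩ : ∃ e, D = e + 1 := ⟨D - 1, by omega⟩
        have : (e + 1 + 1) ^ 5 = e ^ 5 + 10 * e ^ 4 + 40 * e ^ 3 + 80 * e ^ 2 + 80 * e + 32 := by
          ring
        rw [this]
        have : 0 ≤ e ^ 5 + 10 * e ^ 4 + 40 * e ^ 3 + 80 * e ^ 2 := Nat.zero_le _
        omega
      calc (6 * D + 13) ^ x ≤ ((D + 1) ^ 5) ^ x := Nat.pow_le_pow_left h5 _
        _ = ((D + 1) ^ x) ^ 5 := by rw [← pow_mul, ← pow_mul, mul_comm]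
        _ ≤ M ^ 5 := Nat.pow_le_pow_left hM _
    · exact Nat.pow_le_pow_left (by omega) _

/-- exponents used by the verifier -/
def rD (c N : ℕ) : ℕ := FF (4 * N + 5) N (N ^ c) + 1
def eD (c N : ℕ) : ℕ := FF (rD c N + 4 * N + 6) N (N ^ c) + 1

theorem RC_le {c N x y a1 : ℕ} (hxy : x + y ≤ N) (ha1 : a1 ≤ N) (hD1 : 1 ≤ D)
    (hDN : D ≤ N) (hM : (D + 1) ^ x ≤ N ^ c) :
    2 * RC x y a1 D (2 ^ (N + 1)) ≤ 2 ^ rD c N := by
  unfold RC rD
  rw [pow_succ 2 (FF _ _ _), mul_comm]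
  apply Nat.mul_le_mul_right
  apply HC_le (D := D) (x := x) (by omega) (by omega) (by omega) (by omega) _ _ (by omega) hD1
    hDN hM
  · exact Nat.succ_le_of_lt (by positivity)
  · have h1 : D + 2 ≤ 2 ^ (N + 2) := (by omega : D + 2 ≤ N + 2).trans (Nat.lt_two_pow_self).le
    have h2 : 2 ^ (N + 1) + 2 ≤ 2 ^ (N + 2) := by
      rw [pow_succ 2 (N + 1)]
      have : 2 ≤ 2 ^ (N + 1) := by
        calc 2 = 2 ^ 1 := by norm_num
          _ ≤ 2 ^ (N + 1) := Nat.pow_le_pow_right (by norm_num) (by omega)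
      omega
    calc (D + 2) * (2 ^ (N + 1) + 2) ≤ 2 ^ (N + 2) * 2 ^ (N + 2) := Nat.mul_le_mul h1 h2
      _ = 2 ^ (2 * N + 4) := by rw [← pow_add]; congr 1; ring
      _ ≤ 2 ^ (4 * N + 5) := Nat.pow_le_pow_right (by norm_num) (by omega)

theorem DC_le {c N x y a1 : ℕ} (hxy : x + y ≤ N) (ha1 : a1 ≤ N) (hD1 : 1 ≤ D)
    (hDN : D ≤ N) (hM : (D + 1) ^ x ≤ N ^ c) :
    2 * DC x y a1 D (2 ^ (N + 1)) (2 ^ rD c N) ≤ 2 ^ eD c N := by
  unfold DC eD
  rw [pow_succ 2 (FF _ _ _), mul_comm]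
  apply Nat.mul_le_mul_right
  set r := rD c N with hr
  apply HC_le (D := D) (x := x) (by omega) (by omega) (by omega) (by omega) _ _ (by omega) hD1
    hDN hM
  · exact Nat.succ_le_of_lt (by positivity)
  · have h1 : D + 2 ≤ 2 ^ (N + 2) := (by omega : D + 2 ≤ N + 2).trans (Nat.lt_two_pow_self).le
    have h4 : 1 ≤ 2 ^ r := Nat.one_le_two_pow
    have h2 : 2 ^ r * 2 ^ (N + 1) + 2 ^ r + 2 ≤ 2 ^ (r + N + 3) := by
      have h5 : 2 ^ (r + N + 3) = 2 ^ r * (4 * 2 ^ (N + 1)) := by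
        rw [show r + N + 3 = r + (2 + (N + 1)) by ring, pow_add, pow_add]; norm_num
      rw [h5]
      have h6 : 1 ≤ 2 ^ (N + 1) := Nat.one_le_two_pow
      nlinarith
    calc (D + 2) * (2 ^ r * 2 ^ (N + 1) + 2 ^ r + 2) ≤ 2 ^ (N + 2) * 2 ^ (r + N + 3) :=
          Nat.mul_le_mul h1 h2
      _ = 2 ^ (r + 2 * N + 5) := by rw [← pow_add]; congr 1; ring
      _ ≤ 2 ^ (r + 4 * N + 6) := Nat.pow_le_pow_right (by norm_num) (by omega)

end Pool.Agent.Helper54.Lg
end

section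
open Pool.Agent.Helper54.Poly

namespace Pool.Agent.Helper54.Lg

open ETR

theorem tvalD_sem (c : CD) (t : Term) (r : TRec) (h : tvalD c t = some r) :
    ((r.1.n : ℝ) - r.2.1.n) = t.eval (xx c.1) * 2 ^ (c.1.2.1 * r.2.2.1) ∧
      r.2.2.2 = t.wdeg (XX c.1) c.2 ∧ VarsLt c.1.1.length t := by
  induction t generalizing r with
  | zero =>
    simp only [tvalD, Option.some.injEq] at h; subst h
    simp [Term.eval, Term.wdeg, VarsLt]
  | one =>
    simp only [tvalD, Option.some.injEq] at h; subst h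
    simp [Term.eval, Term.wdeg, VarsLt]
  | var i =>
    simp only [tvalD] at h
    rcases hd : c.1.1.drop i with _ | ⟨e, l⟩
    · rw [hd] at h; simp at h
    · rw [hd] at h; simp only [Option.some.injEq] at h; subst h
      have hlt : i < c.1.1.length := by
        by_contra hc
        rw [List.drop_eq_nil_of_le (by omega)] at hd
        simp at hd
      refine ⟨?_, ?_, hlt⟩
      · simp only [Term.eval, xx, hd, mul_one]
        field_simp
      · have h1 : i ∈ XX c.1 ↔ e.1 = true := by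
          simp [XX, flagAt, hd, hlt]
        simp only [Term.wdeg, h1]
  | add s t ihs iht =>
    simp only [tvalD] at h
    cases h1 : tvalD c s with
    | none => rw [h1] at h; simp at h
    | some a =>
      cases h2 : tvalD c t with
      | none => rw [h1, h2] at h; simp at h
      | some b =>
        rw [h1, h2] at h; simp only [Option.some.injEq] at h; subst h
        obtain ⟨a1, a2, a3⟩ := ihs a h1
        obtain ⟨b1, b2, b3⟩ := iht b h2
        exact ⟨tadd_sem c.1 a b _ _ a1 b1, by simp only [tadd, Term.wdeg, a2, b2], a3, b3⟩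
  | sub s t ihs iht =>
    simp only [tvalD] at h
    cases h1 : tvalD c s with
    | none => rw [h1] at h; simp at h
    | some a =>
      cases h2 : tvalD c t with
      | none => rw [h1, h2] at h; simp at h
      | some b =>
        rw [h1, h2] at h; simp only [Option.some.injEq] at h; subst h
        obtain ⟨a1, a2, a3⟩ := ihs a h1
        obtain ⟨b1, b2, b3⟩ := iht b h2
        refine ⟨?_, by simp only [tadd, tswap, Term.wdeg, a2, b2], a3, b3⟩
        have := tadd_sem c.1 a (tswap b) _ _ a1 (tswap_sem c.1 b _ b1)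
        rw [this, Term.eval, sub_eq_add_neg]
  | mul s t ihs iht =>
    simp only [tvalD] at h
    cases h1 : tvalD c s with
    | none => rw [h1] at h; simp at h
    | some a =>
      cases h2 : tvalD c t with
      | none => rw [h1, h2] at h; simp at h
      | some b =>
        rw [h1, h2] at h; simp only [Option.some.injEq] at h; subst h
        obtain ⟨a1, a2, a3⟩ := ihs a h1
        obtain ⟨b1, b2, b3⟩ := iht b h2
        exact ⟨tmul_sem c.1 a b _ _ a1 b1, by simp only [tmul, Term.wdeg, a2, b2], a3, b3⟩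

theorem tvalD_ex (c : CD) (t : Term) (h : VarsLt c.1.1.length t) : ∃ r, tvalD c t = some r := by
  induction t with
  | zero => exact ⟨_, rfl⟩
  | one => exact ⟨_, rfl⟩
  | var i =>
    have h : i < c.1.1.length := h
    simp only [tvalD]
    rcases hd : c.1.1.drop i with _ | ⟨e, l⟩
    · rw [List.drop_eq_nil_iff] at hd; omega
    · exact ⟨_, rfl⟩
  | add s t ihs iht | sub s t ihs iht | mul s t ihs iht =>
    obtain ⟨a, ha⟩ := ihs h.1
    obtain ⟨b, hb⟩ := iht h.2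
    simp only [tvalD, ha, hb]
    exact ⟨_, rfl⟩

/-- classification of an atom -/
def kclsD (c : CD) (s t : Term) : Option (Bool × Bool) :=
  match tvalD c s, tvalD c t with
  | some a, some b => cls0 c.1 (tadd c.1 a (tswap b))
  | _, _ => none

def sgD (c : CD) (a : Term × Term) : SignType :=
  match kclsD c a.1 a.2 with
  | some k => sgOf k
  | none => 0

/-- both sides have small weighted degree -/
def WOk (c : CD) (a : Term × Term) : Prop :=
  a.1.wdeg (XX c.1) c.2 ≤ c.2 ∧ a.2.wdeg (XX c.1) c.2 ≤ c.2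

theorem kclsD_dec {c : CD} {s t : Term} {k : Bool × Bool} (h : kclsD c s t = some k) :
    ∃ a b, tvalD c s = some a ∧ tvalD c t = some b ∧ cls0 c.1 (tadd c.1 a (tswap b)) = some k := by
  unfold kclsD at h
  cases h1 : tvalD c s with
  | none => rw [h1] at h; simp at h
  | some a =>
    cases h2 : tvalD c t with
    | none => rw [h1, h2] at h; simp at h
    | some b => rw [h1, h2] at h; exact ⟨a, b, rfl, rfl, h⟩

theorem avalD_sem {g : Bool × Bool → Bool} {c : CD} {s t : Term} {r : FRec}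
    (h : avalD g c s t = some r) : ∃ k, kclsD c s t = some k ∧ WOk c (s, t) ∧ r.1 = g k := by
  unfold avalD at h
  cases h1 : tvalD c s with
  | none => rw [h1] at h; simp at h
  | some a =>
    cases h2 : tvalD c t with
    | none => rw [h1, h2] at h; simp at h
    | some b =>
      rw [h1, h2] at h
      simp only [atomD] at h
      have e1 := (tvalD_sem c s a h1).2.1
      have e2 := (tvalD_sem c t b h2).2.1
      cases h3 : cls0 c.1 (tadd c.1 a (tswap b)) with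
      | none => rw [h3] at h; simp at h
      | some k =>
        rw [h3] at h
        simp only [e1, e2] at h
        refine ⟨k, by simp [kclsD, h1, h2, h3], ?_⟩
        unfold WOk
        simp only
        by_cases h4 : max (s.wdeg (XX c.1) c.2) (t.wdeg (XX c.1) c.2) ≤ c.2
        · rw [if_pos (by simpa using h4)] at h
          simp only [Option.some.injEq] at h
          exact ⟨⟨(le_max_left _ _).trans h4, (le_max_right _ _).trans h4⟩, by rw [← h]⟩
        · rw [if_neg (by simpa using h4)] at h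
          simp at h

theorem avalD_ex {g : Bool × Bool → Bool} {c : CD} {s t : Term} {k : Bool × Bool}
    (h : kclsD c s t = some k) (hd : WOk c (s, t)) : ∃ r, avalD g c s t = some r := by
  obtain ⟨a, b, h1, h2, h3⟩ := kclsD_dec h
  have e1 := (tvalD_sem c s a h1).2.1
  have e2 := (tvalD_sem c t b h2).2.1
  simp only [avalD, h1, h2, atomD, h3, e1, e2]
  rw [if_pos (by
    rw [decide_eq_true_eq]
    exact max_le hd.1 hd.2)]
  exact ⟨_, rfl⟩

theorem fvalD_sem (c : CD) (p : Form) (r : FRec) (h : fvalD c p = some r) :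
    (∀ a ∈ p.atoms, (∃ k, kclsD c a.1 a.2 = some k) ∧ WOk c a) ∧
      r.1 = p.tv (sgD c) := by
  have atomCase : ∀ (g : Bool × Bool → Bool) (s t : Term) (r : FRec), avalD g c s t = some r →
      (∀ a ∈ [(s, t)], (∃ k, kclsD c a.1 a.2 = some k) ∧ WOk c a) ∧
      (∃ k, k ≠ (true, true) ∧ r.1 = g k ∧ sgD c (s, t) = sgOf k) := by
    intro g s t r h
    obtain ⟨k, h1, h2, h3⟩ := avalD_sem h
    refine ⟨?_, ⟨k, ?_, ?_, ?_⟩⟩
    · intro a ha
      rw [List.mem_singleton] at ha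
      subst ha
      exact ⟨⟨k, h1⟩, h2⟩
    · obtain ⟨_, _, _, _, h4⟩ := kclsD_dec h1
      exact cls0_valid h4
    · rw [h3]
    · simp [sgD, h1]
  induction p generalizing r with
  | lt s t =>
    obtain ⟨h1, ⟨k, h2, h3, h4⟩⟩ := atomCase gLt s t r h
    exact ⟨h1, by rw [h3, (g_tv k h2).1]; simp [Form.tv, h4]⟩
  | le s t =>
    obtain ⟨h1, ⟨k, h2, h3, h4⟩⟩ := atomCase gLe s t r h
    exact ⟨h1, by rw [h3, (g_tv k h2).2.1]; simp [Form.tv, h4]⟩
  | eq s t =>
    obtain ⟨h1, ⟨k, h2, h3, h4⟩⟩ := atomCase gEq s t r h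
    exact ⟨h1, by rw [h3, (g_tv k h2).2.2.1]; simp [Form.tv, h4]⟩
  | ge s t =>
    obtain ⟨h1, ⟨k, h2, h3, h4⟩⟩ := atomCase gGe s t r h
    exact ⟨h1, by rw [h3, (g_tv k h2).2.2.2.1]; simp [Form.tv, h4]⟩
  | gt s t =>
    obtain ⟨h1, ⟨k, h2, h3, h4⟩⟩ := atomCase gGt s t r h
    exact ⟨h1, by rw [h3, (g_tv k h2).2.2.2.2]; simp [Form.tv, h4]⟩
  | and p q ihp ihq =>
    simp only [fvalD] at h
    cases h1 : fvalD c p with
    | none => rw [h1] at h; simp at h
    | some a =>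
      cases h2 : fvalD c q with
      | none => rw [h1, h2] at h; simp at h
      | some b =>
        rw [h1, h2] at h; simp only [Option.some.injEq] at h; subst h
        obtain ⟨a1, a2⟩ := ihp a h1
        obtain ⟨b1, b2⟩ := ihq b h2
        refine ⟨?_, by simp [Form.tv, a2, b2]⟩
        intro x hx
        rcases List.mem_append.1 hx with hx | hx
        exacts [a1 x hx, b1 x hx]
  | or p q ihp ihq =>
    simp only [fvalD] at h
    cases h1 : fvalD c p with
    | none => rw [h1] at h; simp at h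
    | some a =>
      cases h2 : fvalD c q with
      | none => rw [h1, h2] at h; simp at h
      | some b =>
        rw [h1, h2] at h; simp only [Option.some.injEq] at h; subst h
        obtain ⟨a1, a2⟩ := ihp a h1
        obtain ⟨b1, b2⟩ := ihq b h2
        refine ⟨?_, by simp [Form.tv, a2, b2]⟩
        intro x hx
        rcases List.mem_append.1 hx with hx | hx
        exacts [a1 x hx, b1 x hx]
  | not p ihp =>
    simp only [fvalD] at h
    cases h1 : fvalD c p with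
    | none => rw [h1] at h; simp at h
    | some a =>
      rw [h1] at h; simp only [Option.some.injEq] at h; subst h
      obtain ⟨a1, a2⟩ := ihp a h1
      exact ⟨a1, by simp [Form.tv, a2]⟩

theorem fvalD_ex (c : CD) (p : Form)
    (h : ∀ a ∈ p.atoms, (∃ k, kclsD c a.1 a.2 = some k) ∧ WOk c a) :
    ∃ r, fvalD c p = some r := by
  induction p with
  | lt s t | le s t | eq s t | ge s t | gt s t =>
    obtain ⟨⟨k, hk⟩, hd⟩ := h (s, t) (by simp [Form.atoms])
    exact avalD_ex hk hd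
  | and p q ihp ihq | or p q ihp ihq =>
    obtain ⟨a, ha⟩ := ihp fun x hx => h x (by simp [Form.atoms, hx])
    obtain ⟨b, hb⟩ := ihq fun x hx => h x (by simp [Form.atoms, hx])
    simp only [fvalD, ha, hb]
    exact ⟨_, rfl⟩
  | not p ihp =>
    obtain ⟨a, ha⟩ := ihp fun x hx => h x (by simpa [Form.atoms] using hx)
    simp only [fvalD, ha]
    exact ⟨_, rfl⟩

theorem tdiffD_sem (c : CD) (s t : Term) (a b : TRec) (ha : tvalD c s = some a)
    (hb : tvalD c t = some b) :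
    (((tadd c.1 a (tswap b)).1.n : ℝ) - (tadd c.1 a (tswap b)).2.1.n) =
      (s.eval (xx c.1) - t.eval (xx c.1)) * 2 ^ (c.1.2.1 * (tadd c.1 a (tswap b)).2.2.1) := by
  have h1 := (tvalD_sem c s a ha).1
  have h2 := (tvalD_sem c t b hb).1
  have := tadd_sem c.1 a (tswap b) _ _ h1 (tswap_sem c.1 b _ h2)
  rw [this, sub_eq_add_neg]

theorem wdeg_congr {X X' : Finset ℕ} {n D : ℕ} (h : ∀ i < n, i ∈ X ↔ i ∈ X') (t : Term)
    (ht : VarsLt n t) : t.wdeg X D = t.wdeg X' D := by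
  induction t with
  | zero => rfl
  | one => rfl
  | var i =>
    have := h i ht
    simp only [Term.wdeg, this]
  | add s t ihs iht | sub s t ihs iht | mul s t ihs iht =>
    simp only [Term.wdeg, ihs ht.1, iht ht.2]

theorem goodD_of (p : Form) (n : ℕ) (X : Finset ℕ) (N D : ℕ) (hN : p.toks.length ≤ N)
    (hD : 1 ≤ D) (hd : ∀ a ∈ p.atoms, a.1.wdeg X D ≤ D ∧ a.2.wdeg X D ≤ D)
    (hv : ∀ a ∈ p.atoms, VarsLt n a.1 ∧ VarsLt n a.2) : GoodD n N X D p :=
  ⟨hD, hd, fun a ha => (hv a ha).1, fun a ha => (hv a ha).2, fun a ha => by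
    have := atoms_tsz p a ha; omega⟩

end Pool.Agent.Helper54.Lg
end
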