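import Pool.Agent.Helper54.ETRSem2
import Pool.Agent.Helper54.Lg.Sem

open Pool.Agent.Helper54.Poly

namespace Pool.Agent.Helper54.Lg

open ETR

/-- strictness of the object values -/
theorem vstep_noneD (c : CD) (t : Tok) (st : List Ob) (h : ovalsD c st = none) :
    (pstep t st).bind (ovalsD c) = none := by
  have h1 : ∀ (o : Ob) (st : List Ob), ovalsD c (o :: st) = none →
      ovalD c o = none ∨ ovalsD c st = none := by
    intro o st h
    cases h1 : ovalD c o with
    | none => exact Or.inl rfl
    | some v =>
      cases h2 : ovalsD c st with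
      | none => exact Or.inr rfl
      | some vs => rw [ovals_mkD h1 h2] at h; exact absurd h (by simp)
  have tmN : ∀ t : Term, ovalD c (Ob.tm t) = none → tvalD c t = none := by
    intro t ht
    simp only [ovalD] at ht
    cases h : tvalD c t with
    | none => rfl
    | some r => rw [h] at ht; simp at ht
  have fmN : ∀ t : Form, ovalD c (Ob.fm t) = none → fvalD c t = none := by
    intro t ht
    simp only [ovalD] at ht
    cases h : fvalD c t with
    | none => rfl
    | some r => rw [h] at ht; simp at ht
  have avN : ∀ (g : Bool × Bool → Bool) (s t : Term), tvalD c s = none ∨ tvalD c t = none →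
      avalD g c s t = none := by
    intro g s t h
    unfold avalD
    rcases h with h | h
    · rw [h]
    · rw [h]; cases tvalD c s <;> rfl
  unfold pstep
  split
  case h_17 => rfl
  case h_1 => exact ovals_none2D h
  case h_2 => exact ovals_none2D h
  case h_3 => exact ovals_none2D h
  case h_4 =>
    rcases h1 _ _ h with h2 | h2
    · simp [ovalD] at h2
    · exact ovals_none2D h2
  case h_5 =>
    rcases h1 _ _ h with h2 | h2
    · simp [ovalD] at h2
    · exact ovals_none2D h2
  case h_6 a b st =>
    rcases h1 _ _ h with h2 | h2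
    · apply ovals_none1D; simp [ovalD, tvalD, tmN _ h2]
    · rcases h1 _ _ h2 with h2 | h2
      · apply ovals_none1D; simp only [ovalD, tvalD, tmN _ h2]; cases tvalD c a <;> rfl
      · exact ovals_none2D h2
  case h_7 a b st =>
    rcases h1 _ _ h with h2 | h2
    · apply ovals_none1D; simp [ovalD, tvalD, tmN _ h2]
    · rcases h1 _ _ h2 with h2 | h2
      · apply ovals_none1D; simp only [ovalD, tvalD, tmN _ h2]; cases tvalD c a <;> rfl
      · exact ovals_none2D h2
  case h_8 a b st =>
    rcases h1 _ _ h with h2 | h2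
    · apply ovals_none1D; simp [ovalD, tvalD, tmN _ h2]
    · rcases h1 _ _ h2 with h2 | h2
      · apply ovals_none1D; simp only [ovalD, tvalD, tmN _ h2]; cases tvalD c a <;> rfl
      · exact ovals_none2D h2
  case h_14 a b st =>
    rcases h1 _ _ h with h2 | h2
    · apply ovals_none1D; simp [ovalD, fvalD, fmN _ h2]
    · rcases h1 _ _ h2 with h2 | h2
      · apply ovals_none1D; simp only [ovalD, fvalD, fmN _ h2]; cases fvalD c a <;> rfl
      · exact ovals_none2D h2
  case h_15 a b st =>
    rcases h1 _ _ h with h2 | h2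
    · apply ovals_none1D; simp [ovalD, fvalD, fmN _ h2]
    · rcases h1 _ _ h2 with h2 | h2
      · apply ovals_none1D; simp only [ovalD, fvalD, fmN _ h2]; cases fvalD c a <;> rfl
      · exact ovals_none2D h2
  case h_16 a st =>
    rcases h1 _ _ h with h2 | h2
    · apply ovals_none1D; simp [ovalD, fvalD, fmN _ h2]
    · exact ovals_none2D h2
  all_goals
    rcases h1 _ _ h with h2 | h2
    · apply ovals_none1D; simp only [ovalD, fvalD, avN _ _ _ (Or.inl (tmN _ h2))]
    · rcases h1 _ _ h2 with h2 | h2
      · apply ovals_none1D; simp only [ovalD, fvalD, avN _ _ _ (Or.inr (tmN _ h2))]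
      · exact ovals_none2D h2

/-- evaluation of a token list, reading from the right -/
def vevalD (c : CD) (l : List Tok) : Option (List Val) :=
  l.foldr (fun t s => s.bind (vstepD c t)) (some [])

theorem veval_eqD (c : CD) (l : List Tok) : vevalD c l = (parse l).bind (ovalsD c) := by
  induction l with
  | nil => rfl
  | cons t l ih =>
    have h1 : vevalD c (t :: l) = (vevalD c l).bind (vstepD c t) := rfl
    rw [h1, ih, parse_cons]
    cases h2 : parse l with
    | none => rfl
    | some st =>
      simp only [Option.bind_some]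
      cases h3 : ovalsD c st with
      | none => rw [vstep_noneD c t st h3]; rfl
      | some vs => rw [Option.bind_some, vstep_okD c t st vs h3]

/-! ### sizes -/

theorem sz_drop_ctxD (c : CD) (i : ℕ) : sz (c.1.1.drop i) + 2 * c.1.2.1 + 1 + 2 * c.2 + 1 ≤ sz c := by
  have h1 : sz c = sz c.1 + sz c.2 + 1 := by
    obtain ⟨a, b⟩ := c
    rw [sz_pair]
  have h2 := sz_drop_ctx c.1 i
  rw [sz_nat] at h1
  omega

structure TBD (K : ℕ) (r : TRec) (s : ℕ) : Prop where
  p : 2 * r.1.n < 2 ^ (K * r.2.2.1)
  n : 2 * r.2.1.n < 2 ^ (K * r.2.2.1)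
  w1 : 1 ≤ r.2.2.1
  w2 : r.2.2.1 ≤ s
  d : r.2.2.2 ≤ K * s

theorem TB_taddD {c : CD} {K s t : ℕ} (hK : c.1.2.1 + 1 ≤ K) {a b : TRec} (ha : TBD K a s)
    (hb : TBD K b t) : TBD K (tadd c.1 a b) (s + t + 1) := by
  obtain ⟨a1, a2, a3, a4, a5⟩ := ha
  obtain ⟨b1, b2, b3, b4, b5⟩ := hb
  set L := c.1.2.1
  set wa := a.2.2.1 with hwa
  set wb := b.2.2.1 with hwb
  have e1 : 2 * 2 ^ (K * wa + L * wb) ≤ 2 ^ (K * (wa + wb)) := by
    rw [← pow_succ']
    apply Nat.pow_le_pow_right (by norm_num)
    have : (L + 1) * wb ≤ K * wb := Nat.mul_le_mul_right _ hK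
    nlinarith
  have e2 : 2 * 2 ^ (K * wb + L * wa) ≤ 2 ^ (K * (wa + wb)) := by
    rw [← pow_succ']
    apply Nat.pow_le_pow_right (by norm_num)
    have : (L + 1) * wa ≤ K * wa := Nat.mul_le_mul_right _ hK
    nlinarith
  have key : ∀ x y : ℕ, 2 * x < 2 ^ (K * wa) → 2 * y < 2 ^ (K * wb) →
      2 * (x * 2 ^ (L * wb) + y * 2 ^ (L * wa)) < 2 ^ (K * (wa + wb)) := by
    intro x y hx hy
    have h1 : 2 * x * 2 ^ (L * wb) < 2 ^ (K * wa + L * wb) := by
      rw [pow_add]; exact Nat.mul_lt_mul_of_pos_right hx (by positivity)
    have h2 : 2 * y * 2 ^ (L * wa) < 2 ^ (K * wb + L * wa) := by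
      rw [pow_add]; exact Nat.mul_lt_mul_of_pos_right hy (by positivity)
    nlinarith
  refine ⟨key _ _ a1 b1, key _ _ a2 b2, ?_, ?_, ?_⟩
  · change 1 ≤ wa + wb; omega
  · change wa + wb ≤ _; omega
  · change max _ _ ≤ _
    have e3 : K * (s + t + 1) = K * s + K * t + K := by ring
    rw [e3]; omega

theorem TB_tswapD {K s : ℕ} {a : TRec} (ha : TBD K a s) : TBD K (tswap a) s :=
  ⟨ha.n, ha.p, ha.w1, ha.w2, ha.d⟩

theorem TB_tmulD {K s t : ℕ} {a b : TRec} (ha : TBD K a s)
    (hb : TBD K b t) : TBD K (tmul a b) (s + t + 1) := by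
  obtain ⟨a1, a2, a3, a4, a5⟩ := ha
  obtain ⟨b1, b2, b3, b4, b5⟩ := hb
  set wa := a.2.2.1 with hwa
  set wb := b.2.2.1 with hwb
  have key : ∀ x y z w : ℕ, 2 * x < 2 ^ (K * wa) → 2 * y < 2 ^ (K * wb) →
      2 * z < 2 ^ (K * wa) → 2 * w < 2 ^ (K * wb) →
      2 * (x * y + z * w) < 2 ^ (K * (wa + wb)) := by
    intro x y z w h1 h2 h3 h4
    have h5 : (2 * x) * (2 * y) < 2 ^ (K * wa) * 2 ^ (K * wb) := Nat.mul_lt_mul'' h1 h2
    have h6 : (2 * z) * (2 * w) < 2 ^ (K * wa) * 2 ^ (K * wb) := Nat.mul_lt_mul'' h3 h4
    rw [Nat.mul_add K, pow_add]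
    nlinarith
  refine ⟨key _ _ _ _ a1 b1 a2 b2, key _ _ _ _ a1 b2 a2 b1, ?_, ?_, ?_⟩
  · change 1 ≤ wa + wb; omega
  · change wa + wb ≤ _; omega
  · change a.2.2.2 + b.2.2.2 ≤ _
    have e3 : K * (s + t + 1) = K * s + K * t + K := by ring
    rw [e3]; omega

theorem tval_TBD (c : CD) (t : Term) (r : TRec) (h : tvalD c t = some r) :
    TBD (sz c + 1) r t.toks.length := by
  have hK : c.1.2.1 + 1 ≤ sz c + 1 := by have := sz_drop_ctxD c 0; omega
  have hD : c.2 ≤ sz c := by have := sz_drop_ctxD c 0; omega
  induction t generalizing r with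
  | zero =>
    simp only [tvalD, Option.some.injEq] at h; subst h
    exact ⟨by simp, by simp, by simp, by simp [Term.toks], by simp⟩
  | one =>
    simp only [tvalD, Option.some.injEq] at h; subst h
    refine ⟨?_, by simp, by simp, by simp [Term.toks], by simp⟩
    simp only [one_mul, mul_one]
    rw [pow_succ' 2 (sz c)]
    have : 2 ^ c.1.2.1 < 2 ^ sz c := Nat.pow_lt_pow_right (by norm_num) (by
      have := sz_drop_ctxD c 0; omega)
    omega
  | var i =>
    simp only [tvalD] at h
    rcases hd : c.1.1.drop i with _ | ⟨e, l⟩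
    · rw [hd] at h; simp at h
    · rw [hd] at h; simp only [Option.some.injEq] at h; subst h
      have h1 := sz_drop_ctxD c i
      rw [hd, sz_cons] at h1
      have h2 : sz e = sz e.1 + (sz e.2.1 + sz e.2.2 + 1) + 1 := by
        obtain ⟨a, b, d⟩ := e
        rw [sz_pair, sz_pair]
      have h3 := lt_of_sz e.2.1
      have h4 := lt_of_sz e.2.2
      have h5 : 2 ^ sz e.2.1 ≤ 2 ^ sz c := Nat.pow_le_pow_right (by norm_num) (by omega)
      have h6 : 2 ^ sz e.2.2 ≤ 2 ^ sz c := Nat.pow_le_pow_right (by norm_num) (by omega)
      refine ⟨?_, ?_, by simp, by simp [Term.toks], ?_⟩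
      · simp only [mul_one]; rw [pow_succ' 2 (sz c)]; omega
      · simp only [mul_one]; rw [pow_succ' 2 (sz c)]; omega
      · have h7 : 1 ≤ (Term.var i).toks.length := toks_pos _
        have h8 : (sz c + 1) * 1 ≤ (sz c + 1) * (Term.var i).toks.length :=
          Nat.mul_le_mul_left _ h7
        simp only
        split_ifs <;> omega
  | add s t ihs iht =>
    simp only [tvalD] at h
    cases h1 : tvalD c s with
    | none => rw [h1] at h; simp at h
    | some a =>
      cases h2 : tvalD c t with
      | none => rw [h1, h2] at h; simp at h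
      | some b =>
        rw [h1, h2] at h; simp only [Option.some.injEq] at h; subst h
        have := TB_taddD (c := c) hK (ihs a h1) (iht b h2)
        simpa [Term.toks] using this
  | sub s t ihs iht =>
    simp only [tvalD] at h
    cases h1 : tvalD c s with
    | none => rw [h1] at h; simp at h
    | some a =>
      cases h2 : tvalD c t with
      | none => rw [h1, h2] at h; simp at h
      | some b =>
        rw [h1, h2] at h; simp only [Option.some.injEq] at h; subst h
        have := TB_taddD (c := c) hK (ihs a h1) (TB_tswapD (iht b h2))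
        simpa [Term.toks] using this
  | mul s t ihs iht =>
    simp only [tvalD] at h
    cases h1 : tvalD c s with
    | none => rw [h1] at h; simp at h
    | some a =>
      cases h2 : tvalD c t with
      | none => rw [h1, h2] at h; simp at h
      | some b =>
        rw [h1, h2] at h; simp only [Option.some.injEq] at h; subst h
        have := TB_tmulD (ihs a h1) (iht b h2)
        simpa [Term.toks] using this

theorem aval_cntD {g : Bool × Bool → Bool} {c : CD} {s t : Term} {r : FRec}
    (h : avalD g c s t = some r) : r.2 ≤ 1 := by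
  unfold avalD at h
  cases h1 : tvalD c s with
  | none => rw [h1] at h; simp at h
  | some a =>
    cases h2 : tvalD c t with
    | none => rw [h1, h2] at h; simp at h
    | some b =>
      rw [h1, h2] at h
      simp only [atomD] at h
      cases h3 : cls0 c.1 (tadd c.1 a (tswap b)) with
      | none => rw [h3] at h; simp at h
      | some k =>
        rw [h3] at h
        simp only at h
        split_ifs at h
        simp only [Option.some.injEq] at h; subst h; simp

theorem fval_cntD (c : CD) (p : Form) (r : FRec) (h : fvalD c p = some r) :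
    r.2 ≤ p.toks.length := by
  induction p generalizing r with
  | lt s t | le s t | eq s t | ge s t | gt s t =>
    have := aval_cntD h
    simp only [Form.toks, List.length_cons]; omega
  | and p q ihp ihq | or p q ihp ihq =>
    simp only [fvalD] at h
    cases h1 : fvalD c p with
    | none => rw [h1] at h; simp at h
    | some a =>
      cases h2 : fvalD c q with
      | none => rw [h1, h2] at h; simp at h
      | some b =>
        rw [h1, h2] at h; simp only [Option.some.injEq] at h; subst h
        have := ihp a h1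
        have := ihq b h2
        simp only [Form.toks, List.length_cons, List.length_append]; omega
  | not p ihp =>
    simp only [fvalD] at h
    cases h1 : fvalD c p with
    | none => rw [h1] at h; simp at h
    | some a =>
      rw [h1] at h; simp only [Option.some.injEq] at h; subst h
      have := ihp a h1
      simp only [Form.toks, List.length_cons]; omega

/-- size of an object value -/
theorem oval_szD (c : CD) (o : Ob) (v : Val) (h : ovalD c o = some v) :
    sz v ≤ (14 * sz c + 60) * o.toks.length := by
  have hb := sz_bb v.1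
  cases o with
  | num i =>
    simp only [ovalD, Option.some.injEq] at h; subst h
    rw [sz_val]
    have h1 := sz_drop_ctxD c i
    simp only [vnum, t0, f0, sz_bn0, sz_nat, sz_false] at hb ⊢
    have h2 : 1 ≤ (Ob.num i).toks.length := by simp [Ob.toks]
    have h3 : (14 * sz c + 60) * 1 ≤ (14 * sz c + 60) * (Ob.num i).toks.length :=
      Nat.mul_le_mul_left _ h2
    omega
  | tm t =>
    obtain ⟨r, hr, rfl⟩ := oval_tmD h
    obtain ⟨h1, h2, h3, h4, h5⟩ := tval_TBD c t r hr
    have h6 := sz_bn_le r.1.n ((sz c + 1) * r.2.2.1) (by omega)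
    have h7 := sz_bn_le r.2.1.n ((sz c + 1) * r.2.2.1) (by omega)
    rw [sz_val]
    simp only [vtm, f0, sz_nat, sz_false, sz_nil] at hb ⊢
    have h8 : (sz c + 1) * r.2.2.1 ≤ (sz c + 1) * t.toks.length := Nat.mul_le_mul_left _ h4
    have h9 := toks_pos t
    have h10 : (14 * sz c + 60) * t.toks.length = 14 * ((sz c + 1) * t.toks.length) +
      46 * t.toks.length := by ring
    change _ ≤ (14 * sz c + 60) * t.toks.length
    rw [h10]
    have h11 : sz (⟨r.1.n⟩ : BN) = sz r.1 := rfl
    have h12 : sz (⟨r.2.1.n⟩ : BN) = sz r.2.1 := rfl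
    omega
  | fm p =>
    obtain ⟨r, hr, rfl⟩ := oval_fmD h
    have h1 := fval_cntD c p r hr
    have h2 := toksF_pos p
    rw [sz_val]
    have h3 := sz_bool r.1
    simp only [vfm, t0, sz_bn0, sz_nat, sz_nil] at hb ⊢
    change _ ≤ (14 * sz c + 60) * p.toks.length
    have h4 : (14 * sz c + 60) * p.toks.length = 14 * (sz c * p.toks.length) +
      60 * p.toks.length := by ring
    rw [h4]
    omega

theorem ovals_szD (c : CD) (st : List Ob) (vs : List Val) (h : ovalsD c st = some vs) :
    sz vs ≤ (14 * sz c + 61) * (st.flatMap Ob.toks).length + 1 := by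
  induction st generalizing vs with
  | nil => simp only [ovalsD, Option.some.injEq] at h; subst h; rw [sz_nil]; simp
  | cons o st ih =>
    obtain ⟨v, vs', h1, h2, rfl⟩ := ovals_consD h
    rw [sz_cons, List.flatMap_cons, List.length_append]
    have h3 := oval_szD c o v h1
    have h4 := ih vs' h2
    have h5 : 1 ≤ o.toks.length := by
      cases o with
      | num i => simp [Ob.toks]
      | tm t => exact toks_pos t
      | fm t => exact toksF_pos t
    have h6 : (14 * sz c + 61) * (o.toks.length + (st.flatMap Ob.toks).length) =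
      (14 * sz c + 60) * o.toks.length + o.toks.length +
      (14 * sz c + 61) * (st.flatMap Ob.toks).length := by ring
    rw [h6]
    omega

theorem veval_szD (c : CD) (l : List Tok) :
    sz (vevalD c l) ≤ (14 * sz c + 61) * l.length + 3 := by
  rw [veval_eqD]
  cases h : parse l with
  | none => simp [sz_none]
  | some st =>
    rw [Option.bind_some]
    cases h2 : ovalsD c st with
    | none => simp [sz_none]
    | some vs =>
      rw [sz_some]
      have h3 := ovals_szD c st vs h2
      rw [← parse_sound l st h] at h3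
      omega

theorem veval_foldlD (c : CD) (l : List Tok) :
    l.reverse.foldl (fun s t => s.bind (vstepD c t)) (some []) = vevalD c l := by
  rw [List.foldl_reverse]; rfl

/-- evaluation of token lists is polynomial-time -/
theorem PTvevalD {α : Type} [TEnc α] {c : α → CD} {l : α → List Tok} (hc : PT c) (hl : PT l) :
    PT (fun a => vevalD (c a) (l a)) := by
  have hf : PT (fun z : α × (Option (List Val) × Tok) =>
      z.2.1.bind (vstepD (c z.1) z.2.2)) := by
    have h1 : PT (fun y : (α × (Option (List Val) × Tok)) × List Val =>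
        vstepD (c y.1.1) y.1.2.2 y.2) :=
      PTvstepD.comp ((hc.comp PT.id.fst.fst).pair (PT.id.fst.snd.snd.pair PT.id.snd))
    have h2 := PT.optCase (l := fun z : α × (Option (List Val) × Tok) => z.2.1)
      (f := fun _ => (none : Option (List Val))) PT.id.snd.fst (PT.const _) h1
    refine h2.congr fun z => ?_
    cases z.2.1 <;> rfl
  obtain ⟨C, hC⟩ := hc.bound
  obtain ⟨S, hS⟩ := hl.bound
  have h := PT.foldl hf hl.reverse (x := fun _ => some []) (PT.const _)
    ((14 * C + 61) * S + 3) (by
      intro a k hk
      have h1 : (l a).reverse.take k = ((l a).drop ((l a).length - k)).reverse := by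
        rw [List.take_reverse]
      change sz (((l a).reverse.take k).foldl (fun s t => s.bind (vstepD (c a) t)) (some [])) ≤ _
      rw [h1, veval_foldlD]
      refine (veval_szD _ _).trans ?_
      have h2 : ((l a).drop ((l a).length - k)).length ≤ (l a).length := by
        rw [List.length_drop]; omega
      have h3 : (l a).length ≤ S.eval (sz a) := (length_le_sz _).trans (hS a)
      have h4 := Nat.mul_le_mul (show 14 * sz (c a) + 61 ≤ 14 * C.eval (sz a) + 61 by
        have := hC a; omega) (h2.trans h3)
      simp only [Polynomial.eval_add, Polynomial.eval_mul, Polynomial.eval_ofNat]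
      omega)
  exact h.congr fun a => veval_foldlD (c a) (l a)

end Pool.Agent.Helper54.Lg
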