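import Pool.Agent.Helper54.ETRMain
import Pool.Agent.Helper54.Lg.Num
import Pool.Agent.Helper54.Lg.Sem2

section
open Pool.Agent.Helper54.Poly

namespace Pool.Agent.Helper54.Lg

open ETR

/-- soundness of the certificate -/
theorem cert_soundD (c : CD) (κ N e : ℕ) (p : Form) (r : FRec) (hNp : N = p.code.length)
    (hlen : c.1.1.length ≤ N) (hD1 : 1 ≤ c.2) (hDN : c.2 ≤ N)
    (hX : (c.2 + 1) ^ (XX c.1).card ≤ N ^ κ) (hr : c.1.2.2.1 = rD κ N)
    (he : c.1.2.2.2 = rD κ N + e) (hee : e = eD κ N)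
    (hent : ∀ en ∈ c.1.1, en.2.1.n ≤ 2 ^ (rD κ N + c.1.2.1) ∧ en.2.2.n ≤ 2 ^ (rD κ N + c.1.2.1))
    (hf : fvalD c p = some r) (htv : r.1 = true) :
    p.Low κ ∧ ∃ x : ℕ → ℝ, p.Holds x := by
  have hN : p.toks.length ≤ N := by rw [hNp]; exact toks_le_code p
  obtain ⟨h1, h2⟩ := fvalD_sem c p r hf
  have hd : ∀ a ∈ p.atoms, a.1.wdeg (XX c.1) c.2 ≤ c.2 ∧ a.2.wdeg (XX c.1) c.2 ≤ c.2 :=
    fun a ha => (h1 a ha).2
  refine ⟨⟨XX c.1, c.2, hD1, by rw [← hNp]; exact hX, hd⟩, ?_⟩
  have hv : ∀ a ∈ p.atoms, VarsLt c.1.1.length a.1 ∧ VarsLt c.1.1.length a.2 := by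
    intro a ha
    obtain ⟨⟨kk, hk⟩, _⟩ := h1 a ha
    obtain ⟨u, v, hu, hv, _⟩ := kclsD_dec hk
    exact ⟨(tvalD_sem c _ _ hu).2.2, (tvalD_sem c _ _ hv).2.2⟩
  have hg := goodD_of p c.1.1.length (XX c.1) N c.2 hN hD1 hd hv
  set R : ℕ := 2 ^ rD κ N with hR
  have hRr : ((R : ℕ) : ℝ) = 2 ^ rD κ N := by rw [hR]; push_cast; rfl
  set δ : ℝ := 2 ^ c.1.2.2.1 / 2 ^ c.1.2.2.2 with hδ
  have hδe : δ = 1 / 2 ^ eD κ N := by
    rw [hδ, hr, he, hee, pow_add]
    field_simp
  have hδ0 : 0 ≤ δ := by rw [hδe]; positivity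
  refine certB hg (sgD c) (xx c.1) R Nat.one_le_two_pow δ hδ0 ?_ ?_ (by rw [← h2]; exact htv)
  · have hcv := card_VX_VY (n := c.1.1.length) (X := XX c.1)
    have hcx := card_VX_le (n := c.1.1.length) (X := XX c.1)
    have hM : (c.2 + 1) ^ Fintype.card (VX c.1.1.length (XX c.1)) ≤ N ^ κ :=
      (Nat.pow_le_pow_right (by omega) hcx).trans hX
    have hD := DC_le (D := c.2) (c := κ) (N := N)
      (x := Fintype.card (VX c.1.1.length (XX c.1)))
      (y := Fintype.card (VY c.1.1.length (XX c.1))) (a1 := p.atoms.length)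
      (by omega) ((atoms_len p).trans hN) hD1 hDN hM
    have hD' : 2 * (DC (Fintype.card (VX c.1.1.length (XX c.1)))
      (Fintype.card (VY c.1.1.length (XX c.1))) p.atoms.length c.2
        (2 ^ (N + 1)) R : ℝ) ≤ 2 ^ eD κ N := by exact_mod_cast hD
    rw [hδe]
    have hpos : (0:ℝ) < 2 ^ eD κ N := by positivity
    rw [one_div, inv_mul_lt_iff₀ hpos]
    linarith
  · constructor
    · intro a ha b
      obtain ⟨⟨kk, hk⟩, _⟩ := h1 a ha
      obtain ⟨u, v, hu, hv, hcl⟩ := kclsD_dec hk
      have h4 := cls0_sound c.1 _ kk hcl _ (tdiffD_sem c _ _ _ _ hu hv) b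
      have h5 : sgD c a = sgOf kk := by simp only [sgD, hk]
      rw [h5, hRr, ← hr]
      exact h4
    · intro i hi
      rcases hdi : c.1.1.drop i with _ | ⟨en, l⟩
      · rw [List.drop_eq_nil_iff] at hdi; omega
      · have hmem : en ∈ c.1.1 := by
          apply List.mem_of_mem_drop (i := i)
          rw [hdi]; exact List.mem_cons_self
        obtain ⟨e1, e2⟩ := hent en hmem
        have e1' : (en.2.1.n : ℝ) ≤ 2 ^ (rD κ N + c.1.2.1) := by exact_mod_cast e1
        have e2' : (en.2.2.n : ℝ) ≤ 2 ^ (rD κ N + c.1.2.1) := by exact_mod_cast e2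
        have hxx : xx c.1 i = ((en.2.1.n : ℝ) - en.2.2.n) / 2 ^ c.1.2.1 := by
          simp only [xx, hdi]
        have h6 : |(en.2.1.n : ℝ) - en.2.2.n| ≤ 2 ^ (rD κ N + c.1.2.1) := by
          rw [abs_le]
          have : (0:ℝ) ≤ en.2.1.n := Nat.cast_nonneg _
          have : (0:ℝ) ≤ en.2.2.n := Nat.cast_nonneg _
          constructor <;> linarith
        have hpos : (0:ℝ) < 2 ^ c.1.2.1 := by positivity
        have h7 : |xx c.1 i| ≤ 2 ^ rD κ N := by
          rw [hxx, abs_div, abs_of_pos hpos, div_le_iff₀ hpos, ← pow_add]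
          exact h6
        rw [hRr]; linarith

/-- number of extra bits used by the certificates -/
def LD (κ N : ℕ) : ℕ := rD κ N + eD κ N + rD κ N * N + 1

theorem cert_completeD (κ N : ℕ) (p : Form) (hNp : N = p.code.length)
    (hfr : p.Low κ) (hsol : ∃ x : ℕ → ℝ, p.Holds x) :
    ∃ (A : List Ent) (D : ℕ), A.length = N ∧ 1 ≤ D ∧ D ≤ N ∧
      (∀ en ∈ A, ∃ b z, en = mkEnt b z ∧ z.natAbs ≤ 2 ^ (rD κ N + LD κ N)) ∧
      (D + 1) ^ (XX (A, (LD κ N, (rD κ N, rD κ N + eD κ N)))).card ≤ N ^ κ ∧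
      ∃ r, fvalD ((A, (LD κ N, (rD κ N, rD κ N + eD κ N))), D) p = some r ∧
        r.1 = true := by
  have hN : p.toks.length ≤ N := by rw [hNp]; exact toks_le_code p
  have hN1 : 1 ≤ N := (toksF_pos p).trans hN
  have hfr' : ∃ (X : Finset ℕ) (D : ℕ), 1 ≤ D ∧ D ≤ N ∧ (D + 1) ^ X.card ≤ N ^ κ ∧
      ∀ a ∈ p.atoms, a.1.wdeg X D ≤ D ∧ a.2.wdeg X D ≤ D := by
    obtain ⟨X, D, hD1, hX, hdeg⟩ := hfr
    rw [← hNp] at hX
    by_cases hDN : D ≤ N
    · exact ⟨X, D, hD1, hDN, hX, hdeg⟩
    · push Not at hDN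
      refine ⟨X, N, hN1, le_rfl, (Nat.pow_le_pow_left (by omega) _).trans hX, fun a ha => ?_⟩
      obtain ⟨h1, h2⟩ := atoms_tsz p a ha
      obtain ⟨h3, h4⟩ := hdeg a ha
      exact ⟨(wdeg_change hD1 _ h3 (h1.trans hN)).1, (wdeg_change hD1 _ h4 (h2.trans hN)).1⟩
  obtain ⟨X, D, hD1, hDN, hX, hdeg⟩ := hfr'
  have hv : ∀ a ∈ p.atoms, VarsLt N a.1 ∧ VarsLt N a.2 := by
    intro a ha
    obtain ⟨h1, h2⟩ := atoms_tsz p a ha
    exact ⟨varsLt_of_size _ _ (h1.trans hN), varsLt_of_size _ _ (h2.trans hN)⟩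
  have hg := goodD_of p N X N D hN hD1 hdeg hv
  obtain ⟨sg, x, hrob, htv⟩ := certA hg hsol
  set R0 : ℕ := RC (Fintype.card (VX N X)) (Fintype.card (VY N X)) p.atoms.length
    D (2 ^ (N + 1)) with hR0
  set r := rD κ N with hr
  set e := eD κ N with he
  set L := LD κ N with hL
  have hLe : L = r + e + r * N + 1 := rfl
  have hR1 : 1 ≤ R0 := by rw [hR0]; exact HC_pos _ _ _ _ _
  have hRr : 2 * R0 ≤ 2 ^ r := by
    have hcv := card_VX_VY (n := N) (X := X)
    have hcx := card_VX_le (n := N) (X := X)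
    exact RC_le (D := D) (c := κ) (by omega) ((atoms_len p).trans hN) hD1 hDN
      ((Nat.pow_le_pow_right (by omega) hcx).trans hX)
  have hr1 : 1 ≤ r := by rw [hr]; unfold rD; omega
  have he1 : 1 ≤ e := by rw [he]; unfold eD; omega
  set c : Ctx := (rnd X L x N, (L, (r, r + e))) with hc
  have hR0' : (1:ℝ) ≤ (R0 : ℝ) := by exact_mod_cast hR1
  have hRr' : 2 * (R0 : ℝ) ≤ 2 ^ r := by exact_mod_cast hRr
  have hpL : (0:ℝ) < 2 ^ L := by positivity
  -- values
  have hxx : ∀ i < N, xx c i = (⌊x i * 2 ^ L⌋ : ℝ) / 2 ^ L := by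
    intro i hi
    obtain ⟨l, hl⟩ := rnd_drop X L x N i hi
    simp only [xx, hc, hl]
    rw [mkEnt_val]
  have hflag : ∀ i < N, (i ∈ XX c ↔ i ∈ X) := by
    intro i hi
    obtain ⟨l, hl⟩ := rnd_drop X L x N i hi
    simp only [XX, hc, rnd_len, Finset.mem_filter, Finset.mem_range, hi, true_and, flagAt, hl,
      mkEnt, decide_eq_true_eq]
  have hxb : ∀ i < N, |x i| ≤ R0 := by
    intro i hi
    have := hrob.bd i hi
    simpa using this
  have hdiff : ∀ i < N, |xx c i - x i| ≤ 1 / 2 ^ L := by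
    intro i hi
    rw [hxx i hi]
    have h1 := Int.floor_le (x i * 2 ^ L)
    have h2 := Int.lt_floor_add_one (x i * 2 ^ L)
    have h3 : (⌊x i * 2 ^ L⌋ : ℝ) / 2 ^ L - x i = ((⌊x i * 2 ^ L⌋ : ℝ) - x i * 2 ^ L) / 2 ^ L := by
      field_simp
    rw [h3, abs_div, abs_of_pos hpL]
    apply div_le_div_of_nonneg_right _ hpL.le
    rw [abs_le]; constructor <;> linarith
  have hinvL : (1:ℝ) / 2 ^ L ≤ 1 := by
    rw [div_le_one hpL]; exact one_le_pow₀ (by norm_num)
  have h2r : (2:ℝ) ≤ 2 ^ r := by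
    calc (2:ℝ) = 2 ^ 1 := by norm_num
      _ ≤ 2 ^ r := pow_le_pow_right₀ (by norm_num) hr1
  have hxB : ∀ i < N, |x i| ≤ (2:ℝ) ^ r := fun i hi => (hxb i hi).trans (by linarith)
  have hzB : ∀ i < N, |xx c i| ≤ (2:ℝ) ^ r := by
    intro i hi
    have h1 : |xx c i| ≤ |xx c i - x i| + |x i| := by
      have := abs_add_le (xx c i - x i) (x i)
      simpa using this
    have h2 := hdiff i hi
    have h3 := hxb i hi
    linarith
  -- perturbation of an atom
  have hpert : ∀ a ∈ p.atoms, |(a.1.eval (xx c) - a.2.eval (xx c)) -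
      (a.1.eval x - a.2.eval x)| ≤ 1 / 2 ^ (r + e) := by
    intro a ha
    obtain ⟨v1, v2⟩ := hv a ha
    obtain ⟨s1, s2⟩ := atoms_tsz p a ha
    have l1 := (lip (xx c) x N (2 ^ r) (1 / 2 ^ L) h2r (by positivity) hzB hxB hdiff a.1 v1).2.2
    have l2 := (lip (xx c) x N (2 ^ r) (1 / 2 ^ L) h2r (by positivity) hzB hxB hdiff a.2 v2).2.2
    have hm1 : ((2:ℝ) ^ r) ^ tsz a.1 ≤ 2 ^ (r * N) := by
      rw [← pow_mul]
      exact pow_le_pow_right₀ (by norm_num) (Nat.mul_le_mul_left _ (s1.trans hN))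
    have hm2 : ((2:ℝ) ^ r) ^ tsz a.2 ≤ 2 ^ (r * N) := by
      rw [← pow_mul]
      exact pow_le_pow_right₀ (by norm_num) (Nat.mul_le_mul_left _ (s2.trans hN))
    have hsplit : (a.1.eval (xx c) - a.2.eval (xx c)) - (a.1.eval x - a.2.eval x) =
      (a.1.eval (xx c) - a.1.eval x) - (a.2.eval (xx c) - a.2.eval x) := by ring
    rw [hsplit]
    refine (abs_sub _ _).trans ?_
    have hpi : (0:ℝ) ≤ 1 / 2 ^ L := by positivity
    have k1 := mul_le_mul_of_nonneg_left hm1 hpi
    have k2 := mul_le_mul_of_nonneg_left hm2 hpi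
    have hfin : 1 / 2 ^ L * 2 ^ (r * N) + 1 / 2 ^ L * 2 ^ (r * N) = (1:ℝ) / 2 ^ (r + e) := by
      have : (2:ℝ) ^ L = 2 ^ (r + e) * 2 ^ (r * N) * 2 := by
        rw [hLe, pow_succ, pow_add]
      rw [this]
      field_simp
      ring
    linarith
  -- classification
  have hcl : ∀ a ∈ p.atoms, ∃ kk, kclsD (c, D) a.1 a.2 = some kk ∧ sgOf kk = sg a := by
    intro a ha
    obtain ⟨v1, v2⟩ := hv a ha
    have hlen : c.1.length = N := by simp only [hc]; rw [rnd_len]
    obtain ⟨u, hu⟩ := tvalD_ex (c, D) a.1 (by rw [hlen]; exact v1)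
    obtain ⟨w, hw⟩ := tvalD_ex (c, D) a.2 (by rw [hlen]; exact v2)
    have hp := hpert a ha
    have hat := hrob.at' a ha
    set v0 := a.1.eval x - a.2.eval x with hv0
    set v1' := a.1.eval (xx c) - a.2.eval (xx c) with hv1
    have hp' := abs_le.1 hp
    have hr0 : (0:ℝ) < 2 ^ r := by positivity
    have he0 : (0:ℝ) < 2 ^ (r + e) := by positivity
    have hre : (2:ℝ) ^ r * (1 / 2 ^ (r + e)) ≤ 1 / 2 := by
      rw [pow_add]
      have : (2:ℝ) ≤ 2 ^ e := by
        calc (2:ℝ) = 2 ^ 1 := by norm_num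
          _ ≤ 2 ^ e := pow_le_pow_right₀ (by norm_num) he1
      have h2 : (0:ℝ) < 2 ^ e := by positivity
      have h3 : (2:ℝ) ^ r * (1 / (2 ^ r * 2 ^ e)) = 1 / 2 ^ e := by field_simp
      rw [h3]
      exact one_div_le_one_div_of_le (by norm_num) this
    obtain ⟨kk, hk1, hk2⟩ := cls0_complete c _ v1' (tdiffD_sem (c, D) _ _ _ _ hu hw) (sg a)
      (by change r + 1 ≤ r + e; omega)
      (by
        intro hs
        have := hat true
        rw [hs] at this
        have e1 : al (-1) true = 1 := rfl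
        have e2 : be (-1) = 1 := rfl
        rw [e1, e2] at this
        push_cast at this
        have h5 : (R0:ℝ) * v0 ≤ -1 := by linarith
        change (2:ℝ) ^ r * v1' ≤ -1
        have h6 : v0 ≤ 0 := by
          by_contra hcc; push Not at hcc
          have : 0 < (R0:ℝ) * v0 := by positivity
          linarith
        have h7 : (2:ℝ) ^ r * v0 ≤ 2 * R0 * v0 := by nlinarith
        have h8 : (2:ℝ) ^ r * v1' ≤ 2 ^ r * v0 + 2 ^ r * (1 / 2 ^ (r + e)) := by
          rw [← mul_add]
          apply mul_le_mul_of_nonneg_left _ hr0.le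
          linarith [hp'.2]
        linarith)
      (by
        intro hs
        have := hat true
        rw [hs] at this
        have e1 : al 1 true = -1 := rfl
        have e2 : be 1 = 1 := rfl
        rw [e1, e2] at this
        push_cast at this
        have h5 : 1 ≤ (R0:ℝ) * v0 := by linarith
        change 1 ≤ (2:ℝ) ^ r * v1'
        have h6 : 0 ≤ v0 := by
          by_contra hcc; push Not at hcc
          have : (R0:ℝ) * v0 < 0 := by nlinarith
          linarith
        have h7 : 2 * R0 * v0 ≤ (2:ℝ) ^ r * v0 := by nlinarith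
        have h8 : 2 ^ r * v0 - 2 ^ r * (1 / 2 ^ (r + e)) ≤ (2:ℝ) ^ r * v1' := by
          rw [← mul_sub]
          apply mul_le_mul_of_nonneg_left _ hr0.le
          linarith [hp'.1]
        linarith)
      (by
        intro hs
        have t1 := hat true
        have t2 := hat false
        rw [hs] at t1 t2
        have e1 : al 0 true = 1 := rfl
        have e3 : al 0 false = -1 := rfl
        have e2 : be 0 = 0 := rfl
        rw [e1, e2] at t1
        rw [e3, e2] at t2
        push_cast at t1 t2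
        have h5 : v0 = 0 := by
          apply le_antisymm
          · by_contra hcc; push Not at hcc
            have : 0 < (R0:ℝ) * v0 := by positivity
            linarith
          · by_contra hcc; push Not at hcc
            have : (R0:ℝ) * v0 < 0 := by nlinarith
            linarith
        change |v1'| * 2 ^ (r + e) ≤ 1
        rw [h5, sub_zero] at hp
        rw [le_div_iff₀ he0] at hp
        exact hp)
    refine ⟨kk, ?_, hk2⟩
    simp only [kclsD, hu, hw, hk1]
  have hdc : ∀ a ∈ p.atoms, WOk (c, D) a := by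
    intro a ha
    obtain ⟨v1, v2⟩ := hv a ha
    unfold WOk
    simp only
    rw [wdeg_congr hflag a.1 v1, wdeg_congr hflag a.2 v2]
    exact hdeg a ha
  refine ⟨rnd X L x N, D, rnd_len _ _ _ _, hD1, hDN, ?_, ?_, ?_⟩
  · intro en hen
    simp only [rnd, List.mem_map, List.mem_range] at hen
    obtain ⟨i, hi, rfl⟩ := hen
    refine ⟨_, _, rfl, ?_⟩
    have h1 := hzB i hi
    rw [hxx i hi, abs_div, abs_of_pos hpL, div_le_iff₀ hpL, ← pow_add] at h1
    have h2 : ((⌊x i * 2 ^ L⌋.natAbs : ℕ) : ℝ) ≤ 2 ^ (r + L) := by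
      rw [Nat.cast_natAbs]; push_cast; exact h1
    exact_mod_cast h2
  · refine (Nat.pow_le_pow_right (by omega) (Finset.card_le_card ?_)).trans hX
    intro i hi
    have hi' : i < N := by
      have := (Finset.mem_filter.1 hi).1
      rw [Finset.mem_range] at this
      simpa [hc, rnd_len] using this
    exact (hflag i hi').1 hi
  · obtain ⟨rv, hrv⟩ := fvalD_ex (c, D) p (by
      intro a ha
      obtain ⟨kk, hk, _⟩ := hcl a ha
      exact ⟨⟨kk, hk⟩, hdc a ha⟩)
    obtain ⟨h1, h2⟩ := fvalD_sem (c, D) p rv hrv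
    refine ⟨rv, hrv, ?_⟩
    rw [h2, ← htv]
    apply tv_congr
    intro a ha
    obtain ⟨kk, hk, hs⟩ := hcl a ha
    simp only [sgD, hk, hs]

end Pool.Agent.Helper54.Lg
end

section
open Pool.Agent.Helper54.Poly

namespace Pool.Agent.Helper54.Lg

open ETR

theorem vevalD_foldl (c : CD) (l : List Tok) :
    l.reverse.foldl (fun s t => s.bind (vstepD c t)) (some []) = vevalD c l := by
  rw [List.foldl_reverse]; rfl

/-! ### truncated powers -/

/-- one step of the truncated power -/
def pstp (D M : ℕ) (s : ℕ) (e : Ent) : ℕ :=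
  if e.1 then (if decide (s * (D + 1) ≤ M) then s * (D + 1) else M + 1) else s

/-- `(D + 1) ^ k` truncated at `M + 1`, where `k` is the number of flagged entries -/
def powA (D M : ℕ) (A : List Ent) : ℕ := A.foldl (pstp D M) 1

theorem powA_aux (D M : ℕ) (A : List Ent) : ∀ s, (A.foldl (pstp D M) s ≤ M ↔
    s * (D + 1) ^ (A.filter fun e => e.1).length ≤ M) := by
  induction A with
  | nil => intro s; simp
  | cons e A ih =>
    intro s
    rw [List.foldl_cons, ih]
    unfold pstp
    cases h : e.1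
    · rw [List.filter_cons_of_neg (by simp [h])]; simp
    · rw [List.filter_cons_of_pos (by simp [h]), List.length_cons]
      simp only [if_true, decide_eq_true_eq]
      have hp : 1 ≤ (D + 1) ^ (A.filter fun e => e.1).length := Nat.one_le_pow _ _ (by omega)
      split_ifs with h2
      · rw [pow_succ, mul_assoc, mul_comm (D + 1)]
      · constructor
        · intro h3
          have := Nat.mul_le_mul_left (M + 1) hp
          omega
        · intro h3
          exfalso
          apply h2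
          rw [pow_succ, mul_comm _ (D + 1), ← mul_assoc] at h3
          have := Nat.mul_le_mul_left (s * (D + 1)) hp
          omega

theorem powA_iff (D M : ℕ) (A : List Ent) : powA D M A ≤ M ↔ (D + 1) ^ cntf A ≤ M := by
  unfold powA cntf
  rw [powA_aux, cntf_aux, one_mul, zero_add]

theorem powA_le (D M : ℕ) (A : List Ent) : ∀ s ≤ M + 1, A.foldl (pstp D M) s ≤ M + 1 := by
  induction A with
  | nil => intro s hs; exact hs
  | cons e A ih =>
    intro s hs
    rw [List.foldl_cons]
    apply ih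
    unfold pstp
    split_ifs with h1 h2
    · rw [decide_eq_true_eq] at h2; omega
    · exact le_rfl
    · exact hs

theorem PTpowA {α : Type} [TEnc α] {D M : α → ℕ} {A : α → List Ent} (hD : PT D) (hM : PT M)
    (hA : PT A) : PT (fun a => powA (D a) (M a) (A a)) := by
  have hD' := hD.comp (PT.id (α := α × (ℕ × Ent))).fst
  have hM' := hM.comp (PT.id (α := α × (ℕ × Ent))).fst
  have hs : PT (fun z : α × (ℕ × Ent) => z.2.1 * (D z.1 + 1)) :=
    PT.mul PT.id.snd.fst (PT.succ hD')
  have h1 : PT (fun z : α × (ℕ × Ent) => pstp (D z.1) (M z.1) z.2.1 z.2.2) :=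
    PT.ite PT.id.snd.snd.fst (PT.ite (PT.leN hs hM') hs (PT.succ hM')) PT.id.snd.fst
  obtain ⟨S, hS⟩ := hM.nbound
  exact PT.foldl h1 hA (x := fun _ => 1) (PT.const 1) (2 * S + 3) (by
    intro b k hk
    change sz (((A b).take k).foldl (pstp (D b) (M b)) 1) ≤ _
    rw [sz_nat]
    have h2 := powA_le (D b) (M b) ((A b).take k) 1 (by omega)
    have h3 := hS b
    simp only [Polynomial.eval_add, Polynomial.eval_mul, Polynomial.eval_ofNat]
    omega)

/-! ### exponents -/

theorem PTFF {α : Type} [TEnc α] {T N M : α → ℕ} (hT : PT T) (hN : PT N) (hM : PT M) :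
    PT (fun a => FF (T a) (N a) (M a)) := by
  have h1 : PT (fun a => 6 * T a ^ 3 + 12 * T a ^ 2 + 21 * T a + 13) :=
    PT.add (PT.add (PT.add (PT.mul (PT.const 6) (PT.pow hT 3)) (PT.mul (PT.const 12)
      (PT.pow hT 2))) (PT.mul (PT.const 21) hT)) (PT.const 13)
  have h2 : PT (fun a => 6 * N a + 13) := PT.add (PT.mul (PT.const 6) hN) (PT.const 13)
  exact PT.mul (PT.add (PT.const 1) (PT.mul h1 (PT.mul (PT.add hN (PT.const 2)) h2)))
    (PT.mul (PT.pow hM 5) (PT.pow h2 2))

theorem PTrD (κ : ℕ) {α : Type} [TEnc α] {N : α → ℕ} (hN : PT N) :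
    PT (fun a => rD κ (N a)) :=
  PT.succ (PTFF (PT.add (PT.mul (PT.const 4) hN) (PT.const 5)) hN (PT.pow hN κ))

theorem PTeD (κ : ℕ) {α : Type} [TEnc α] {N : α → ℕ} (hN : PT N) :
    PT (fun a => eD κ (N a)) :=
  PT.succ (PTFF (PT.add (PT.add (PTrD κ hN) (PT.mul (PT.const 4) hN)) (PT.const 6)) hN
    (PT.pow hN κ))

theorem PTLD (κ : ℕ) {α : Type} [TEnc α] {N : α → ℕ} (hN : PT N) :
    PT (fun a => LD κ (N a)) :=
  PT.succ (PT.add (PT.add (PTrD κ hN) (PTeD κ hN)) (PT.mul (PTrD κ hN) hN))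

/-! ### the verifier -/

def mkCD (κ N D : ℕ) (A : List Ent) : CD :=
  ((A, (LD κ N, (rD κ N, rD κ N + eD κ N))), D)

def fin0 (o : Option (List ETR.Val)) : Bool :=
  match o with
  | none => false
  | some st => match st with
    | [] => false
    | v :: t => t.isEmpty && (kd (true, true) v && v.2.2.2.1)

/-- the weight and the assignment given by the items of a certificate -/
def cD (w : List Bool) : ℕ := ((dec w).2.2.getD 0 []).length
def cA (w : List Bool) : List Ent := (dec w).2.2.tail.map ient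

/-- the verifier, as a function of the input and the certificate -/
def verD (κ : ℕ) (u w : List Bool) : Bool :=
  (tk u).1.isEmpty &&
  (decide (1 ≤ cD w) &&
  (decide (cD w ≤ u.length) &&
  (decide ((cA w).length ≤ u.length) &&
  (decide (powA (cD w) (u.length ^ κ) (cA w) ≤ u.length ^ κ) &&
  ((cA w).all (entOk (rD κ u.length + LD κ u.length)) &&
  fin0 (vevalD (mkCD κ u.length (cD w) (cA w)) (tk u).2))))))

theorem PTfin0 {α : Type} [TEnc α] {o : α → Option (List ETR.Val)} (ho : PT o) :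
    PT (fun a => fin0 (o a)) := by
  have h1 : PT (fun z : (α × List ETR.Val) × ETR.Val × List ETR.Val =>
      z.2.2.isEmpty && (kd (true, true) z.2.1 && z.2.1.2.2.2.1)) :=
    PT.and (PT.isEmpty PT.id.snd.snd) (PT.and (PTkd _ PT.id.snd.fst)
      PT.id.snd.fst.snd.snd.snd.fst)
  have h2 : PT (fun z : α × List ETR.Val => (match z.2 with
    | [] => false
    | v :: t => t.isEmpty && (kd (true, true) v && v.2.2.2.1))) := by
    refine (PT.listCase (α := α × List ETR.Val) (l := fun z => z.2) PT.id.snd (PT.const false)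
      h1).congr fun z => ?_
    rcases z.2 with _ | ⟨v, t⟩ <;> rfl
  refine (PT.optCase ho (PT.const false) h2).congr fun a => ?_
  unfold fin0
  cases o a <;> rfl

theorem PTcD {α : Type} [TEnc α] {w : α → List Bool} (hw : PT w) : PT (fun a => cD (w a)) :=
  PT.length (PT.getD (PT.const 0) (PTdec hw).snd.snd (PT.const []))

theorem PTcA {α : Type} [TEnc α] {w : α → List Bool} (hw : PT w) : PT (fun a => cA (w a)) :=
  PT.map (α := α) (f := fun z => ient z.2) (PTient PT.id.snd) (PT.tail (PTdec hw).snd.snd)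

theorem PTverD (κ : ℕ) {α : Type} [TEnc α] {u w : α → List Bool} (hu : PT u) (hw : PT w) :
    PT (fun a => verD κ (u a) (w a)) := by
  have hN : PT (fun a => (u a).length) := PT.length hu
  have hM : PT (fun a => (u a).length ^ κ) := PT.pow hN κ
  have hD := PTcD hw
  have hA := PTcA hw
  have hT := PTtk hu
  have hr := PTrD κ hN
  have hL := PTLD κ hN
  have he := PTeD κ hN
  have hall : PT (fun a => (cA (w a)).all
      (entOk (rD κ (u a).length + LD κ (u a).length))) :=
    PT.all (α := α) (f := fun z => entOk (rD κ (u z.1).length + LD κ (u z.1).length) z.2)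
      (PTentOk ((PT.add hr hL).comp PT.id.fst) PT.id.snd) hA
  have hctx : PT (fun a => mkCD κ (u a).length (cD (w a)) (cA (w a))) :=
    (hA.pair (hL.pair (hr.pair (PT.add hr he)))).pair hD
  exact PT.and (PT.isEmpty hT.fst) (PT.and (PT.leN (PT.const 1) hD) (PT.and (PT.leN hD hN)
    (PT.and (PT.leN (PT.length hA) hN)
    (PT.and (PT.leN (PTpowA hD hM hA) hM) (PT.and hall (PTfin0 (PTvevalD hctx hT.snd)))))))

theorem verD_poly (κ : ℕ) : Nonempty (Turing.TM2ComputableInPolyTime encPair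
    Computability.encodeBool (fun p : List Bool × List Bool => verD κ p.1 p.2)) := by
  refine polytime_bool encPair _ (fun l => verD κ (split l).2.1 (split l).2.2)
    (PTverD κ (PTsplit PT.id).snd.fst (PTsplit PT.id).snd.snd) ?_
  rintro ⟨u, w⟩
  rw [split_pair]

theorem fin0_true {o : Option (List ETR.Val)} (h : fin0 o = true) :
    ∃ v, o = some [v] ∧ kd (true, true) v = true ∧ v.2.2.2.1 = true := by
  cases o with
  | none => simp [fin0] at h
  | some st =>
    rcases st with _ | ⟨v, t⟩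
    · simp [fin0] at h
    · simp only [fin0, Bool.and_eq_true, List.isEmpty_iff] at h
      obtain ⟨h1, h2, h3⟩ := h
      subst h1
      exact ⟨v, rfl, h2, h3⟩

theorem verD_sound (κ : ℕ) (u w : List Bool) (h : verD κ u w = true) :
    ∃ p : Form, u = p.code ∧ p.Low κ ∧ ∃ x : ℕ → ℝ, p.Holds x := by
  simp only [verD, Bool.and_eq_true, decide_eq_true_eq, List.isEmpty_iff, List.all_eq_true] at h
  obtain ⟨h1, h2, h3, h4, h5, h6, h7⟩ := h
  obtain ⟨v, h8, h9, h10⟩ := fin0_true h7
  set A := cA w with hA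
  set D := cD w with hD
  set N := u.length with hN
  rw [veval_eqD] at h8
  cases hp : parse (tk u).2 with
  | none => rw [hp] at h8; simp at h8
  | some st =>
    rw [hp, Option.bind_some] at h8
    rcases st with _ | ⟨o, st⟩
    · simp [ovalsD] at h8
    · obtain ⟨v', vs, o1, o2, o3⟩ := ovals_consD h8
      simp only [List.cons.injEq] at o3
      obtain ⟨rfl, rfl⟩ := o3
      rcases st with _ | ⟨o', st⟩
      · rw [kd_ovalD o1, decide_eq_true_eq] at h9
        cases o with
        | num i => simp [okind] at h9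
        | tm t => simp [okind] at h9
        | fm p =>
          obtain ⟨r, hr, rfl⟩ := oval_fmD o1
          have hu : u = p.code := (decode_iff u p).2 ⟨h1, hp⟩
          refine ⟨p, hu, ?_⟩
          exact cert_soundD (mkCD κ N D A) κ N (eD κ N) p r (by rw [hN, hu]) h4 h2 h3
            (by
              rw [powA_iff] at h5
              rw [mkCD, XX_card]; exact h5) rfl rfl rfl
            (by
              intro en hen
              have := h6 en hen
              simp only [entOk, Bool.and_eq_true, decide_eq_true_eq] at this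
              exact this) hr h10
      · obtain ⟨v'', vs', o4, o5, o6⟩ := ovals_consD o2
        simp at o6

theorem encItem_len (l : List Bool) : (encItem l).length = 2 * l.length + 2 := by
  unfold encItem
  rw [List.length_cons, List.length_cons]
  have : (l.flatMap fun b => [true, b]).length = 2 * l.length := by
    induction l with
    | nil => rfl
    | cons c l ih => rw [List.flatMap_cons, List.length_append, ih, List.length_cons]; simp; ring
  rw [this]

theorem verD_complete (κ : ℕ) (p : Form) (hf : p.Low κ) (hs : ∃ x : ℕ → ℝ, p.Holds x) :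
    ∃ w : List Bool, w.length ≤ 2 * p.code.length + 2 +
      p.code.length * (2 * (rD κ p.code.length +
      LD κ p.code.length + 3) + 2) ∧ verD κ p.code w = true := by
  set N := p.code.length with hN
  obtain ⟨A, D, h1, hD1, hDN, h2, h3, r, h4, h5⟩ := cert_completeD κ N p hN hf hs
  obtain ⟨ls, h7, h8⟩ := items_of _ A h2
  refine ⟨(List.replicate D true :: ls).flatMap encItem, ?_, ?_⟩
  · rw [List.flatMap_cons, List.length_append, encItem_len, List.length_replicate]
    rw [h1] at h8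
    omega
  obtain ⟨d1, d2⟩ := (decode_iff p.code p).1 rfl
  have e1 : cD ((List.replicate D true :: ls).flatMap encItem) = D := by
    unfold cD; rw [dec_enc]; simp
  have e2 : cA ((List.replicate D true :: ls).flatMap encItem) = A := by
    unfold cA; rw [dec_enc, List.tail_cons]; exact h7
  simp only [verD, Bool.and_eq_true, decide_eq_true_eq, List.isEmpty_iff, List.all_eq_true]
  rw [e1, e2, ← hN]
  refine ⟨d1, hD1, hDN, h1.le, ?_, ?_, ?_⟩
  · rw [powA_iff, ← XX_card A (LD κ N, (rD κ N, rD κ N + eD κ N))]; exact h3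
  · intro en hen
    obtain ⟨b, z, rfl, hz⟩ := h2 en hen
    simp only [entOk, mkEnt, Bool.and_eq_true, decide_eq_true_eq]
    constructor
    · exact le_trans (by omega) hz
    · exact le_trans (by omega) hz
  · rw [veval_eqD, d2, Option.bind_some]
    have ho : ovalD (mkCD κ N D A) (Ob.fm p) = some (vfm r) := by
      simp only [ovalD]
      rw [show fvalD (mkCD κ N D A) p = some r from h4]
    rw [ovals_mkD ho rfl]
    simp only [fin0, vfm, List.isEmpty_nil, Bool.true_and, Bool.and_eq_true]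
    exact ⟨rfl, h5⟩

theorem low_inNP (κ : ℕ) :
    InNP {s | ∃ φ : Form, s = φ.code ∧ φ.Low κ ∧ ∃ x : ℕ → ℝ, φ.Holds x} := by
  have hP : PT (fun N : ℕ => 2 * N + 2 + N * (2 * (rD κ N + LD κ N + 3) + 2)) :=
    PT.add (PT.add (PT.mul (PT.const 2) PT.id) (PT.const 2))
    (PT.mul PT.id (PT.add (PT.mul (PT.const 2) (PT.add (PT.add (PTrD κ PT.id) (PTLD κ PT.id))
      (PT.const 3))) (PT.const 2)))
  obtain ⟨S, hS⟩ := hP.nbound
  refine ⟨fun p => verD κ p.1 p.2, S.comp (2 * Polynomial.X + 1), verD_poly κ, ?_⟩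
  intro u
  constructor
  · rintro ⟨p, rfl, hf, hs⟩
    obtain ⟨w, hw1, hw2⟩ := verD_complete κ p hf hs
    refine ⟨w, hw1.trans ?_, hw2⟩
    refine (hS _).trans (le_of_eq ?_)
    rw [sz_nat, Polynomial.eval_comp]
    simp only [Polynomial.eval_add, Polynomial.eval_mul, Polynomial.eval_ofNat,
      Polynomial.eval_X, Polynomial.eval_one]
  · rintro ⟨w, _, hw⟩
    exact verD_sound κ u w hw

end Pool.Agent.Helper54.Lg
end
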